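import Mathlib

/-!
Definitions for the Kuratowski topologization over the box metric.
-/

open MeasureTheory Set Filter Topology
open scoped ENNReal

namespace Pool.Agent.W5h75.Box

/-- An mm-space: a complete separable metric space with a Borel probability measure. -/
structure MMSpace : Type 1 where
  carrier : Type
  [metric : MetricSpace carrier]
  [complete : CompleteSpace carrier]
  [separable : TopologicalSpace.SeparableSpace carrier]
  [meas : MeasurableSpace carrier]
  [borel : BorelSpace carrier]
  μ : Measure carrier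
  [prob : IsProbabilityMeasure μ]

attribute [instance] MMSpace.metric MMSpace.complete MMSpace.separable MMSpace.meas
  MMSpace.borel MMSpace.prob

/-- The identification of mm-spaces: some isometry `f` between the supports pushes the measure
of `X` to the measure of `Y`. -/
def MMIso (X Y : MMSpace) : Prop :=
  ∃ f : X.μ.support → Y.μ.support, Isometry f ∧
    Measure.map (fun x => (f x : Y.carrier)) (Measure.comap Subtype.val X.μ) = Y.μ

/-- The set of classes of mm-spaces. -/
def MMClass : Type 1 := Quot MMIso

/-- The interval `[0,1)`. -/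
abbrev I01 : Type := Set.Ico (0 : ℝ) 1

/-- Lebesgue measure on `[0,1)`. -/
noncomputable def leb : Measure I01 := Measure.comap Subtype.val (volume : Measure ℝ)

/-- A parameter of `X`: a Borel map `[0,1) → X` pushing Lebesgue measure to the measure of `X`. -/
def IsParam (X : MMSpace) (φ : I01 → X.carrier) : Prop :=
  Measurable φ ∧ Measure.map φ leb = X.μ

/-- The condition on `ε` in the definition of the box distance. -/
def BoxBound (X Y : MMSpace) (ε : ℝ) : Prop :=
  0 ≤ ε ∧ ∃ φ : I01 → X.carrier, ∃ ψ : I01 → Y.carrier, IsParam X φ ∧ IsParam Y ψ ∧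
    ∃ I₀ : Set I01, MeasurableSet I₀ ∧ ENNReal.ofReal (1 - ε) ≤ leb I₀ ∧
      ∀ s ∈ I₀, ∀ t ∈ I₀, |dist (φ s) (φ t) - dist (ψ s) (ψ t)| ≤ ε

/-- The box distance of two mm-spaces. -/
noncomputable def box (X Y : MMSpace) : ℝ≥0∞ :=
  sInf {e : ℝ≥0∞ | ∃ ε : ℝ, BoxBound X Y ε ∧ e = ENNReal.ofReal ε}

/-- Lebesgue measure on `[0,1)` is a probability measure. -/
theorem isProb_leb : IsProbabilityMeasure leb := by
  constructor
  unfold leb
  rw [comap_subtype_coe_apply measurableSet_Ico, image_univ, Subtype.range_coe]
  simp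

theorem meas_support (X : MMSpace) : MeasurableSet X.μ.support :=
  Measure.isClosed_support.measurableSet

/-- Transfer of parameters along an identification. -/
theorem param_transfer {X Y : MMSpace} (h : MMIso X Y) {φ : I01 → X.carrier}
    (hφ : IsParam X φ) : ∃ φ' : I01 → Y.carrier, IsParam Y φ' ∧
      ∃ N : Set I01, MeasurableSet N ∧ leb N = 0 ∧
        ∀ s, s ∉ N → ∀ t, t ∉ N → dist (φ' s) (φ' t) = dist (φ s) (φ t) := by
  classical
  obtain ⟨f, hf, hmap⟩ := h
  have hS := meas_support X
  have hne : X.μ.support.Nonempty := Measure.nonempty_support (IsProbabilityMeasure.ne_zero X.μ)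
  obtain ⟨x₀, hx₀⟩ := hne
  -- the total extension of `f` to `X`
  let g : X.carrier → Y.carrier := fun x => if h : x ∈ X.μ.support then (f ⟨x, h⟩ : Y.carrier)
    else (f ⟨x₀, hx₀⟩ : Y.carrier)
  have hfm : Measurable (fun x => (f x : Y.carrier)) :=
    (continuous_subtype_val.comp hf.continuous).measurable
  have hgm : Measurable g := by
    refine measurable_of_restrict_of_restrict_compl (s := X.μ.support) hS ?_ ?_
    · have : X.μ.support.domRestrict g = (fun x => (f x : Y.carrier)) := by
        funext x
        simp only [Set.domRestrict_apply, g]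
        rw [dif_pos x.2]
      rw [this]
      exact hfm
    · have : (X.μ.support)ᶜ.domRestrict g = (fun _ => (f ⟨x₀, hx₀⟩ : Y.carrier)) := by
        funext x
        simp only [Set.domRestrict_apply, g]
        rw [dif_neg x.2]
      rw [this]
      exact measurable_const
  have hgmap : Measure.map g X.μ = Y.μ := by
    have h1 : X.μ = Measure.map Subtype.val (Measure.comap (Subtype.val : X.μ.support → _) X.μ) := by
      rw [map_comap_subtype_coe hS]
      exact (Measure.restrict_eq_self_of_ae_mem Measure.support_mem_ae).symm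
    have h2 : Measure.map g X.μ = Measure.map g
        (Measure.map Subtype.val (Measure.comap (Subtype.val : X.μ.support → _) X.μ)) :=
      congrArg (Measure.map g) h1
    rw [h2, Measure.map_map hgm measurable_subtype_coe]
    have h3 : g ∘ Subtype.val = (fun x : X.μ.support => (f x : Y.carrier)) := by
      funext x
      simp only [Function.comp, g]
      rw [dif_pos x.2]
    rw [h3]
    exact hmap
  refine ⟨g ∘ φ, ⟨hgm.comp hφ.1, ?_⟩, (φ ⁻¹' X.μ.support)ᶜ, (hφ.1 hS).compl, ?_, ?_⟩
  · rw [← Measure.map_map hgm hφ.1, hφ.2, hgmap]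
  · have h2 : X.μ X.μ.supportᶜ = 0 := Measure.measure_compl_support
    rw [← preimage_compl, ← Measure.map_apply hφ.1 hS.compl, hφ.2, h2]
  · intro s hs t ht
    simp only [mem_compl_iff, not_not, mem_preimage] at hs ht
    simp only [Function.comp, g]
    rw [dif_pos hs, dif_pos ht]
    exact hf.dist_eq _ _

/-- `BoxBound` is symmetric. -/
theorem boxBound_symm {X Y : MMSpace} {ε : ℝ} (h : BoxBound X Y ε) : BoxBound Y X ε := by
  obtain ⟨h0, φ, ψ, hφ, hψ, I₀, hI, hv, hd⟩ := h
  refine ⟨h0, ψ, φ, hψ, hφ, I₀, hI, hv, fun s hs t ht => ?_⟩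
  rw [abs_sub_comm]
  exact hd s hs t ht

theorem box_symm (X Y : MMSpace) : box X Y = box Y X := by
  unfold box
  congr 1
  ext e
  exact ⟨fun ⟨ε, h, he⟩ => ⟨ε, boxBound_symm h, he⟩, fun ⟨ε, h, he⟩ => ⟨ε, boxBound_symm h, he⟩⟩

theorem boxBound_congr_left {X X' Y : MMSpace} (h : MMIso X X') {ε : ℝ}
    (hb : BoxBound X Y ε) : BoxBound X' Y ε := by
  obtain ⟨h0, φ, ψ, hφ, hψ, I₀, hI, hv, hd⟩ := hb
  obtain ⟨φ', hφ', N, hN, hN0, hdist⟩ := param_transfer h hφ
  refine ⟨h0, φ', ψ, hφ', hψ, I₀ \ N, hI.diff hN, ?_, ?_⟩
  · rw [measure_sdiff_null hN0]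
    exact hv
  · intro s hs t ht
    rw [hdist s hs.2 t ht.2]
    exact hd s hs.1 t ht.1

/-- The identification is symmetric. -/
theorem mmIso_symm {X Y : MMSpace} (h : MMIso X Y) : MMIso Y X := by
  classical
  obtain ⟨f, hf, hmap⟩ := h
  have hS := meas_support X
  have hT := meas_support Y
  have hfm : Measurable (fun x => (f x : Y.carrier)) :=
    (continuous_subtype_val.comp hf.continuous).measurable
  have hcm : Measurable f := hf.continuous.measurable
  have hXpol : CompleteSpace X.μ.support :=
    (Measure.isClosed_support (μ := X.μ)).isComplete.completeSpace_coe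
  -- `f` is onto
  have hclosed : IsClosed (range (fun x => (f x : Y.carrier))) := by
    have : Isometry (fun x => (f x : Y.carrier)) := isometry_subtype_coe.comp hf
    exact this.isUniformInducing.isComplete_range.isClosed
  have hfull : range (fun x => (f x : Y.carrier)) ∈ ae Y.μ := by
    have h1 := congrArg (fun m : Measure Y.carrier => m (range (fun x => (f x : Y.carrier)))ᶜ) hmap
    rw [Measure.map_apply hfm hclosed.measurableSet.compl] at h1
    have : (fun x => (f x : Y.carrier)) ⁻¹' (range (fun x => (f x : Y.carrier)))ᶜ = ∅ := by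
      ext x
      simp
    rw [this, measure_empty] at h1
    rw [mem_ae_iff]
    exact h1.symm
  have hsub : Y.μ.support ⊆ range (fun x => (f x : Y.carrier)) :=
    Measure.support_subset_of_isClosed hclosed hfull
  have hsurj : Function.Surjective f := by
    intro y
    obtain ⟨x, hx⟩ := hsub y.2
    exact ⟨x, Subtype.ext hx⟩
  let e : X.μ.support ≃ᵢ Y.μ.support :=
    IsometryEquiv.mk (Equiv.ofBijective f ⟨hf.injective, hsurj⟩) hf
  refine ⟨e.symm, e.symm.isometry, ?_⟩
  have hem : Measurable e := e.continuous.measurable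
  have hesm : Measurable e.symm := e.symm.continuous.measurable
  -- `comap val Y.μ = map f (comap val X.μ)`
  have h1 : Measure.comap (Subtype.val : Y.μ.support → _) Y.μ
      = Measure.map e (Measure.comap (Subtype.val : X.μ.support → _) X.μ) := by
    have h2 : Y.μ = Measure.map (Subtype.val : Y.μ.support → _)
        (Measure.map e (Measure.comap (Subtype.val : X.μ.support → _) X.μ)) := by
      rw [Measure.map_map measurable_subtype_coe hem]
      exact hmap.symm
    have h4 : Measure.comap (Subtype.val : Y.μ.support → _) Y.μ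
        = Measure.comap (Subtype.val : Y.μ.support → _) (Measure.map (Subtype.val : Y.μ.support → _)
        (Measure.map e (Measure.comap (Subtype.val : X.μ.support → _) X.μ))) :=
      congrArg (Measure.comap (Subtype.val : Y.μ.support → _)) h2
    rw [h4]
    exact (MeasurableEmbedding.subtype_coe hT).comap_map _
  have h5 : Measurable (fun x => (e.symm x : X.carrier)) := measurable_subtype_coe.comp hesm
  rw [h1, Measure.map_map h5 hem]
  have h3 : ((fun x => (e.symm x : X.carrier)) ∘ e) = Subtype.val := by
    funext x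
    simp
  rw [h3, map_comap_subtype_coe hS]
  exact Measure.restrict_eq_self_of_ae_mem Measure.support_mem_ae

theorem box_congr_left {X X' : MMSpace} (h : MMIso X X') (Y : MMSpace) :
    box X Y = box X' Y := by
  unfold box
  congr 1
  ext e
  exact ⟨fun ⟨ε, hb, he⟩ => ⟨ε, boxBound_congr_left h hb, he⟩,
    fun ⟨ε, hb, he⟩ => ⟨ε, boxBound_congr_left (mmIso_symm h) hb, he⟩⟩

theorem box_congr_right (X : MMSpace) {Y Y' : MMSpace} (h : MMIso Y Y') :
    box X Y = box X Y' := by
  rw [box_symm X Y, box_symm X Y', box_congr_left h]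

/-- The box distance on the classes. -/
noncomputable def boxDist (x y : MMClass) : ℝ≥0∞ :=
  Quot.lift₂ box (fun X _ _ h => box_congr_right X h) (fun _ _ Y h => box_congr_left h Y) x y

/-- The topology of the box metric: a set is open if it contains, with each of its points `x`,
a ball around `x`. -/
instance boxTopology : TopologicalSpace MMClass where
  IsOpen U := ∀ x ∈ U, ∃ ε : ℝ≥0∞, 0 < ε ∧ ∀ y, boxDist x y < ε → y ∈ U
  isOpen_univ := fun _ _ => ⟨1, one_pos, fun _ _ => mem_univ _⟩
  isOpen_inter := by
    intro U V hU hV x hx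
    obtain ⟨ε, h0, h1⟩ := hU x hx.1
    obtain ⟨δ, h2, h3⟩ := hV x hx.2
    exact ⟨min ε δ, lt_min h0 h2, fun y hy =>
      ⟨h1 y (lt_of_lt_of_le hy (min_le_left _ _)), h3 y (lt_of_lt_of_le hy (min_le_right _ _))⟩⟩
  isOpen_sUnion := by
    intro S hS x hx
    obtain ⟨U, hU, hxU⟩ := hx
    obtain ⟨ε, h0, h1⟩ := hS U hU x hxU
    exact ⟨ε, h0, fun y hy => ⟨U, hU, h1 y hy⟩⟩

/-- The lower limit of a net of closed sets. -/
def lowerLim {ι : Type 1} [Preorder ι] (A : ι → TopologicalSpace.Closeds MMClass) :
    Set MMClass :=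
  {x | ∀ U ∈ 𝓝 x, ∃ i₀, ∀ i, i₀ ≤ i → ((A i : Set MMClass) ∩ U).Nonempty}

/-- The upper limit of a net of closed sets. -/
def upperLim {ι : Type 1} [Preorder ι] (A : ι → TopologicalSpace.Closeds MMClass) :
    Set MMClass :=
  {x | ∀ U ∈ 𝓝 x, ∀ i₀, ∃ i, i₀ ≤ i ∧ ((A i : Set MMClass) ∩ U).Nonempty}

/-- Kuratowski-Painleve convergence of a net of closed sets. -/
def KPLim {ι : Type 1} [Preorder ι] (A : ι → TopologicalSpace.Closeds MMClass)
    (B : TopologicalSpace.Closeds MMClass) : Prop :=
  upperLim A ⊆ B ∧ (B : Set MMClass) ⊆ lowerLim A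

/-- The topologies in which every Kuratowski-Painleve convergent net converges to its
Kuratowski-Painleve limit. -/
def kpTopologies : Set (TopologicalSpace (TopologicalSpace.Closeds MMClass)) :=
  {t | ∀ (ι : Type 1) [Preorder ι] [IsDirectedOrder ι] [Nonempty ι]
    (A : ι → TopologicalSpace.Closeds MMClass) (B : TopologicalSpace.Closeds MMClass),
    KPLim A B → Tendsto A atTop (@nhds _ t B)}

/-- The finest topology in which every Kuratowski-Painleve convergent net converges to its
Kuratowski-Painleve limit (in Mathlib's order on topologies the finest is the infimum). -/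
@[instance_reducible]
def tauK : TopologicalSpace (TopologicalSpace.Closeds MMClass) := sInf kpTopologies

end Pool.Agent.W5h75.Box
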