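import Mathlib
import Pool.Agent.W5h75.BoxDefs

/-!
The Kuratowski topologization over the box metric is not Hausdorff.
-/

open MeasureTheory Set Filter Topology
open scoped ENNReal

namespace Pool.Agent.W5h75.Box

/-- The measure of the set of pairs at distance more than `R`. -/
noncomputable def Phi (R : ℝ) (X : MMSpace) : ℝ :=
  (X.μ.prod X.μ).real {p | R < dist p.1 p.2}

instance secCount (X : MMSpace) : SecondCountableTopology X.carrier :=
  UniformSpace.secondCountable_of_separable X.carrier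

theorem meas_dist (X : MMSpace) (R : ℝ) :
    MeasurableSet {p : X.carrier × X.carrier | R < dist p.1 p.2} :=
  measurableSet_lt measurable_const (measurable_fst.dist measurable_snd)

/-- Computing `Phi` with a map onto the measure. -/
theorem Phi_of_map {Ω : Type} [MeasurableSpace Ω] (P : Measure Ω) [IsProbabilityMeasure P]
    (X : MMSpace) (f : Ω → X.carrier) (hf : Measurable f) (hm : Measure.map f P = X.μ) (R : ℝ) :
    Phi R X = (P.prod P).real {p | R < dist (f p.1) (f p.2)} := by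
  unfold Phi
  rw [← hm, Measure.map_prod_map P P hf hf, measureReal_def,
    Measure.map_apply (hf.prodMap hf) (meas_dist X R)]
  rfl

/-- `Phi` is invariant. -/
theorem Phi_congr {X Y : MMSpace} (h : MMIso X Y) (R : ℝ) : Phi R X = Phi R Y := by
  obtain ⟨f, hf, hmap⟩ := h
  have hS := meas_support X
  have hfm : Measurable (fun x => (f x : Y.carrier)) :=
    (continuous_subtype_val.comp hf.continuous).measurable
  have h1 : Measure.map Subtype.val (Measure.comap (Subtype.val : X.μ.support → _) X.μ) = X.μ := by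
    rw [map_comap_subtype_coe hS]
    exact Measure.restrict_eq_self_of_ae_mem Measure.support_mem_ae
  have hP : IsProbabilityMeasure (Measure.comap (Subtype.val : X.μ.support → _) X.μ) := by
    constructor
    rw [comap_subtype_coe_apply hS, image_univ, Subtype.range_coe]
    exact (prob_compl_eq_zero_iff hS).1 Measure.measure_compl_support
  rw [Phi_of_map _ X Subtype.val measurable_subtype_coe h1,
    Phi_of_map _ Y (fun x => (f x : Y.carrier)) hfm hmap]
  congr 1
  ext p
  have : dist (f p.1 : Y.carrier) (f p.2 : Y.carrier) = dist (p.1 : X.carrier) (p.2 : X.carrier) :=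
    hf.dist_eq _ _
  simp only [mem_ofPred_eq, this]

/-- `Phi` on classes. -/
noncomputable def PhiQ (R : ℝ) (x : MMClass) : ℝ :=
  Quot.lift (Phi R) (fun _ _ h => Phi_congr h R) x

/-- The key inequality. -/
theorem Phi_le_of_boxBound {X Y : MMSpace} {ε : ℝ} (h : BoxBound X Y ε) (R : ℝ) :
    Phi (R + ε) Y ≤ Phi R X + 2 * ε := by
  obtain ⟨h0, φ, ψ, hφ, hψ, I₀, hI, hv, hd⟩ := h
  have := isProb_leb
  rw [Phi_of_map leb Y ψ hψ.1 hψ.2, Phi_of_map leb X φ hφ.1 hφ.2]
  have hsub : {p : I01 × I01 | R + ε < dist (ψ p.1) (ψ p.2)} ⊆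
      {p : I01 × I01 | R < dist (φ p.1) (φ p.2)} ∪ (I₀ᶜ ×ˢ univ ∪ univ ×ˢ I₀ᶜ) := by
    intro p hp
    by_cases h1 : p.1 ∈ I₀
    · by_cases h2 : p.2 ∈ I₀
      · left
        have h3 := hd p.1 h1 p.2 h2
        have h4 := abs_le.1 h3
        simp only [mem_ofPred_eq] at hp ⊢
        linarith [h4.1]
      · right; right
        exact ⟨mem_univ _, h2⟩
    · right; left
      exact ⟨h1, mem_univ _⟩
  have hcompl : leb.real I₀ᶜ ≤ ε := by
    have h1 : 1 - ε ≤ leb.real I₀ := by
      rw [measureReal_def]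
      exact (ENNReal.ofReal_le_iff_le_toReal (measure_ne_top _ _)).1 hv
    rw [probReal_compl_eq_one_sub hI]
    linarith
  calc (leb.prod leb).real {p : I01 × I01 | R + ε < dist (ψ p.1) (ψ p.2)}
      ≤ (leb.prod leb).real ({p : I01 × I01 | R < dist (φ p.1) (φ p.2)} ∪
          (I₀ᶜ ×ˢ univ ∪ univ ×ˢ I₀ᶜ)) := measureReal_mono hsub
    _ ≤ (leb.prod leb).real {p : I01 × I01 | R < dist (φ p.1) (φ p.2)} +
          (leb.prod leb).real (I₀ᶜ ×ˢ univ ∪ univ ×ˢ I₀ᶜ) := measureReal_union_le _ _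
    _ ≤ (leb.prod leb).real {p : I01 × I01 | R < dist (φ p.1) (φ p.2)} +
          ((leb.prod leb).real (I₀ᶜ ×ˢ univ) + (leb.prod leb).real (univ ×ˢ I₀ᶜ)) := by
          gcongr
          exact measureReal_union_le _ _
    _ ≤ _ := by
          rw [measureReal_prod_prod, measureReal_prod_prod]
          simp only [probReal_univ, mul_one, one_mul]
          linarith

theorem Phi_anti {R R' : ℝ} (h : R ≤ R') (X : MMSpace) : Phi R' X ≤ Phi R X := by
  unfold Phi
  refine measureReal_mono ?_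
  intro p hp
  exact lt_of_le_of_lt h hp

theorem boxBound_of_lt {X Y : MMSpace} {ε : ℝ≥0∞} (h : box X Y < ε) :
    ∃ e : ℝ, BoxBound X Y e ∧ ENNReal.ofReal e < ε := by
  unfold box at h
  obtain ⟨e, ⟨e', h1, h2⟩, h3⟩ := sInf_lt_iff.1 h
  exact ⟨e', h1, h2 ▸ h3⟩

/-- An open set. -/
theorem isOpen_A (R c : ℝ) : IsOpen {x : MMClass | ∃ R' < R, PhiQ R' x < c} := by
  intro x hx
  induction x using Quot.ind with | _ X =>
  obtain ⟨R', h1, h2⟩ := hx
  have h2' : Phi R' X < c := h2
  set ε : ℝ := min (R - R') ((c - Phi R' X) / 2) with hε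
  have hε0 : 0 < ε := lt_min (by linarith) (by linarith)
  refine ⟨ENNReal.ofReal ε, ENNReal.ofReal_pos.2 hε0, ?_⟩
  intro y hy
  induction y using Quot.ind with | _ Y =>
  obtain ⟨e, he, he'⟩ := boxBound_of_lt hy
  have he2 : e < ε := (ENNReal.ofReal_lt_ofReal_iff hε0).1 he'
  have h3 := Phi_le_of_boxBound he R'
  have h4 : ε ≤ R - R' := min_le_left _ _
  have h5 : ε ≤ (c - Phi R' X) / 2 := min_le_right _ _
  refine ⟨R' + e, by linarith, ?_⟩
  change Phi (R' + e) Y < c
  linarith

/-- Another open set. -/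
theorem isOpen_B (r c : ℝ) : IsOpen {x : MMClass | ∃ r' > r, c < PhiQ r' x} := by
  intro x hx
  induction x using Quot.ind with | _ X =>
  obtain ⟨r', h1, h2⟩ := hx
  have h2' : c < Phi r' X := h2
  set ε : ℝ := min (r' - r) ((Phi r' X - c) / 2) with hε
  have hε0 : 0 < ε := lt_min (by linarith) (by linarith)
  refine ⟨ENNReal.ofReal ε, ENNReal.ofReal_pos.2 hε0, ?_⟩
  intro y hy
  induction y using Quot.ind with | _ Y =>
  obtain ⟨e, he, he'⟩ := boxBound_of_lt hy
  have he2 : e < ε := (ENNReal.ofReal_lt_ofReal_iff hε0).1 he'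
  have h3 := Phi_le_of_boxBound (boxBound_symm he) (r' - e)
  have h4 : ε ≤ r' - r := min_le_left _ _
  have h5 : ε ≤ (Phi r' X - c) / 2 := min_le_right _ _
  refine ⟨r' - e, by linarith, ?_⟩
  change c < Phi (r' - e) Y
  rw [sub_add_cancel] at h3
  linarith

/-- The two-point space. -/
noncomputable def twoMeasure (δ : ℝ) (k : ℝ) : Measure ℝ :=
  ENNReal.ofReal (1 - δ) • Measure.dirac 0 + ENNReal.ofReal δ • Measure.dirac k

theorem twoMeasure_prob {δ : ℝ} (h0 : 0 ≤ δ) (h1 : δ ≤ 1) (k : ℝ) :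
    IsProbabilityMeasure (twoMeasure δ k) := by
  constructor
  simp only [twoMeasure, Measure.add_apply, Measure.smul_apply, measure_univ, smul_eq_mul, mul_one]
  rw [← ENNReal.ofReal_add (by linarith) h0]
  simp

/-- The space with weights `1 - δ` at `0` and `δ` at `k`. -/
noncomputable def twoPt (δ : ℝ) (h0 : 0 ≤ δ) (h1 : δ ≤ 1) (k : ℝ) : MMSpace :=
  haveI := twoMeasure_prob h0 h1 k
  { carrier := ℝ, μ := twoMeasure δ k }

/-- The one-point space. -/
noncomputable def onePt : MMSpace := { carrier := ℝ, μ := Measure.dirac 0 }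

/-- The measure of `[0, 1 - δ)`. -/
theorem leb_lt {a : ℝ} (h0 : 0 ≤ a) (h1 : a ≤ 1) :
    leb {s : I01 | (s : ℝ) < a} = ENNReal.ofReal a := by
  unfold leb
  rw [comap_subtype_coe_apply measurableSet_Ico]
  have : (Subtype.val '' {s : I01 | (s : ℝ) < a}) = Ico 0 a := by
    ext x
    constructor
    · rintro ⟨s, hs, rfl⟩
      exact ⟨s.2.1, hs⟩
    · rintro ⟨hx0, hx1⟩
      exact ⟨⟨x, hx0, lt_of_lt_of_le hx1 h1⟩, hx1, rfl⟩
  rw [this]
  simp

theorem measLt (a : ℝ) : MeasurableSet {s : I01 | (s : ℝ) < a} :=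
  measurableSet_lt measurable_subtype_coe measurable_const

theorem leb_ge {a : ℝ} (h0 : 0 ≤ a) (h1 : a ≤ 1) :
    leb {s : I01 | (s : ℝ) < a}ᶜ = ENNReal.ofReal (1 - a) := by
  have := isProb_leb
  rw [prob_compl_eq_one_sub (measLt a), leb_lt h0 h1, ENNReal.ofReal_sub _ h0, ENNReal.ofReal_one]

open Classical in
/-- The parameter of the two-point space. -/
theorem twoPt_param (δ : ℝ) (h0 : 0 ≤ δ) (h1 : δ ≤ 1) (k : ℝ) :
    IsParam (twoPt δ h0 h1 k) (fun s : I01 => if (s : ℝ) < 1 - δ then (0 : ℝ) else k) := by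
  have hm : Measurable (fun s : I01 => if (s : ℝ) < 1 - δ then (0 : ℝ) else k) :=
    Measurable.ite (measLt _) measurable_const measurable_const
  refine ⟨hm, ?_⟩
  change Measure.map (fun s : I01 => if (s : ℝ) < 1 - δ then (0 : ℝ) else k) leb = twoMeasure δ k
  ext A hA
  rw [Measure.map_apply hm hA]
  have hsplit : ((fun s : I01 => if (s : ℝ) < 1 - δ then (0 : ℝ) else k) ⁻¹' A) =
      ({s : I01 | (s : ℝ) < 1 - δ} ∩ {_s : I01 | (0 : ℝ) ∈ A}) ∪
      ({s : I01 | (s : ℝ) < 1 - δ}ᶜ ∩ {_s : I01 | k ∈ A}) := by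
    ext s
    by_cases hs : (s : ℝ) < 1 - δ
    · simp [hs]
    · simp [hs]
  rw [hsplit, measure_union]
  · simp only [twoMeasure, Measure.add_apply, Measure.smul_apply, smul_eq_mul,
      Measure.dirac_apply' _ hA]
    congr 1
    · by_cases h : (0 : ℝ) ∈ A
      · have : {_s : I01 | (0 : ℝ) ∈ A} = univ := by ext; simp [h]
        rw [this, inter_univ, leb_lt (by linarith) (by linarith)]
        simp [h]
      · have : {_s : I01 | (0 : ℝ) ∈ A} = ∅ := by ext; simp [h]
        rw [this, inter_empty]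
        simp [h]
    · by_cases h : k ∈ A
      · have : {_s : I01 | k ∈ A} = univ := by ext; simp [h]
        rw [this, inter_univ, leb_ge (by linarith) (by linarith)]
        simp [h]
      · have : {_s : I01 | k ∈ A} = ∅ := by ext; simp [h]
        rw [this, inter_empty]
        simp [h]
  · exact (disjoint_compl_right).mono inter_subset_left inter_subset_left
  · refine (measLt _).compl.inter ?_
    exact MeasurableSet.const _

theorem onePt_param : IsParam onePt (fun _ : I01 => (0 : ℝ)) := by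
  have := isProb_leb
  refine ⟨measurable_const, ?_⟩
  change Measure.map (fun _ : I01 => (0 : ℝ)) leb = Measure.dirac 0
  rw [Measure.map_const]
  simp

theorem box_onePt_twoPt (δ : ℝ) (h0 : 0 ≤ δ) (h1 : δ ≤ 1) (k : ℝ) :
    box onePt (twoPt δ h0 h1 k) ≤ ENNReal.ofReal δ := by
  refine sInf_le ⟨δ, ⟨h0, _, _, onePt_param, twoPt_param δ h0 h1 k,
    {s : I01 | (s : ℝ) < 1 - δ}, measLt _, ?_, ?_⟩, rfl⟩
  · rw [leb_lt (by linarith) (by linarith)]
  · intro s hs t ht
    simp only [mem_ofPred_eq] at hs ht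
    change |dist (0 : ℝ) 0 - dist (if (s : ℝ) < 1 - δ then (0 : ℝ) else k)
      (if (t : ℝ) < 1 - δ then (0 : ℝ) else k)| ≤ δ
    simp [hs, ht, h0]

/-- Lower bound for `Phi` of the two-point space. -/
theorem Phi_twoPt_ge {δ : ℝ} (h0 : 0 ≤ δ) (h1 : δ ≤ 1) {k R : ℝ} (hk : R < k) (hk0 : 0 ≤ k) :
    (1 - δ) * δ ≤ Phi R (twoPt δ h0 h1 k) := by
  have := twoMeasure_prob h0 h1 k
  change (1 - δ) * δ ≤ ((twoMeasure δ k).prod (twoMeasure δ k)).real {p | R < dist p.1 p.2}
  have hsub : ({(0 : ℝ)} ×ˢ {k} : Set (ℝ × ℝ)) ⊆ {p | R < dist p.1 p.2} := by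
    rintro ⟨a, b⟩ ⟨ha, hb⟩
    simp only [mem_singleton_iff] at ha hb
    simp only [mem_ofPred_eq, ha, hb, Real.dist_eq]
    rw [zero_sub, abs_neg, abs_of_nonneg hk0]
    exact hk
  refine le_trans ?_ (measureReal_mono hsub)
  rw [measureReal_prod_prod]
  have ha : 1 - δ ≤ (twoMeasure δ k).real {0} := by
    rw [measureReal_def]
    refine (ENNReal.ofReal_le_iff_le_toReal (measure_ne_top _ _)).1 ?_
    simp only [twoMeasure, Measure.add_apply, Measure.smul_apply, smul_eq_mul]
    refine le_trans ?_ le_self_add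
    simp
  have hb : δ ≤ (twoMeasure δ k).real {k} := by
    rw [measureReal_def]
    refine (ENNReal.ofReal_le_iff_le_toReal (measure_ne_top _ _)).1 ?_
    simp only [twoMeasure, Measure.add_apply, Measure.smul_apply, smul_eq_mul]
    refine le_trans ?_ le_add_self
    simp
  exact mul_le_mul ha hb h0 measureReal_nonneg

/-- Upper bound for `Phi` of the two-point space. -/
theorem Phi_twoPt_le {δ : ℝ} (h0 : 0 ≤ δ) (h1 : δ ≤ 1) {k R : ℝ} (hR : 0 ≤ R) :
    Phi R (twoPt δ h0 h1 k) ≤ 2 * δ := by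
  have := twoMeasure_prob h0 h1 k
  change ((twoMeasure δ k).prod (twoMeasure δ k)).real {p | R < dist p.1 p.2} ≤ 2 * δ
  have hsub : {p : ℝ × ℝ | R < dist p.1 p.2} ⊆
      (({0}ᶜ : Set ℝ) ×ˢ univ ∪ univ ×ˢ ({0}ᶜ : Set ℝ)) := by
    rintro ⟨a, b⟩ hab
    by_cases ha : a = 0
    · by_cases hb : b = 0
      · simp only [mem_ofPred_eq, ha, hb, dist_self] at hab
        exact absurd hab (not_lt.2 hR)
      · right; exact ⟨mem_univ _, hb⟩
    · left; exact ⟨ha, mem_univ _⟩
  have hc : (twoMeasure δ k).real {0}ᶜ ≤ δ := by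
    rw [measureReal_def]
    refine ENNReal.toReal_le_of_le_ofReal h0 ?_
    simp only [twoMeasure, Measure.add_apply, Measure.smul_apply, smul_eq_mul]
    rw [Measure.dirac_apply' _ (measurableSet_singleton (0 : ℝ)).compl]
    simp only [mem_compl_iff, mem_singleton_iff, not_true_eq_false, not_false_eq_true,
      indicator_of_notMem, mul_zero, zero_add]
    calc ENNReal.ofReal δ * (Measure.dirac k) {0}ᶜ ≤ ENNReal.ofReal δ * 1 := by
          gcongr
          exact prob_le_one
      _ = ENNReal.ofReal δ := mul_one _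
  refine (measureReal_mono hsub).trans ((measureReal_union_le _ _).trans ?_)
  rw [measureReal_prod_prod, measureReal_prod_prod]
  simp only [probReal_univ, mul_one, one_mul]
  linarith

/-- If all `Phi r X` vanish for `r > 0`, then `X` is the one-point space. -/
theorem eq_onePt_of_Phi (X : MMSpace) (h : ∀ r : ℝ, 0 < r → Phi r X = 0) :
    box X onePt = 0 := by
  have h1 : (X.μ.prod X.μ) {p | p.1 ≠ p.2} = 0 := by
    have : {p : X.carrier × X.carrier | p.1 ≠ p.2} ⊆
        ⋃ n : ℕ, {p : X.carrier × X.carrier | 1 / ((n : ℝ) + 1) < dist p.1 p.2} := by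
      intro p hp
      obtain ⟨n, hn⟩ := exists_nat_one_div_lt (dist_pos.2 hp)
      exact mem_iUnion.2 ⟨n, hn⟩
    refine measure_mono_null this (measure_iUnion_null fun n => ?_)
    have h2 := h (1 / ((n : ℝ) + 1)) (by positivity)
    unfold Phi at h2
    exact (measureReal_eq_zero_iff).1 h2
  have hms : MeasurableSet {p : X.carrier × X.carrier | p.1 ≠ p.2} :=
    (measurableSet_eq_fun measurable_fst measurable_snd).compl
  have h2 := (Measure.measure_prod_null hms).1 h1
  have h3 : ∃ a : X.carrier, X.μ (Prod.mk a ⁻¹' {p : X.carrier × X.carrier | p.1 ≠ p.2}) = 0 :=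
    (Eventually.exists h2)
  obtain ⟨a, ha⟩ := h3
  have h4 : X.μ {a}ᶜ = 0 := by
    have : (Prod.mk a ⁻¹' {p : X.carrier × X.carrier | p.1 ≠ p.2}) = {a}ᶜ := by
      ext b
      simp only [mem_preimage, mem_ofPred_eq, mem_compl_iff, mem_singleton_iff]
      exact ⟨fun h h' => h h'.symm, fun h h' => h h'.symm⟩
    rw [this] at ha
    exact ha
  have h5 : IsParam X (fun _ : I01 => a) := by
    have := isProb_leb
    refine ⟨measurable_const, ?_⟩
    rw [Measure.map_const, measure_univ, one_smul]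
    ext A hA
    rw [Measure.dirac_apply' _ hA]
    by_cases haA : a ∈ A
    · have : X.μ A = 1 := by
        have h6 : X.μ Aᶜ = 0 := measure_mono_null (fun b hb => by
          simp only [mem_compl_iff, mem_singleton_iff]
          rintro rfl
          exact hb haA) h4
        exact (prob_compl_eq_zero_iff hA).1 h6
      rw [this]
      simp [haA]
    · have : X.μ A = 0 := measure_mono_null (fun b hb => by
          simp only [mem_compl_iff, mem_singleton_iff]
          rintro rfl
          exact haA hb) h4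
      rw [this]
      simp [haA]
  have h6 : BoxBound X onePt 0 := by
    have := isProb_leb
    refine ⟨le_rfl, _, _, h5, onePt_param, univ, MeasurableSet.univ, ?_, ?_⟩
    · simp
    · intro s _ t _
      change |dist a a - dist (0 : ℝ) 0| ≤ 0
      simp
  refine le_antisymm ?_ bot_le
  exact sInf_le_of_le ⟨0, h6, rfl⟩ (by simp)

/-- `Phi` tends to `0`. -/
theorem exists_Phi_lt (X : MMSpace) {c : ℝ} (hc : 0 < c) : ∃ R : ℝ, Phi R X < c := by
  have hanti : Antitone (fun n : ℕ => {p : X.carrier × X.carrier | (n : ℝ) < dist p.1 p.2}) := by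
    intro m n hmn p hp
    have : (m : ℝ) ≤ n := by exact_mod_cast hmn
    exact lt_of_le_of_lt this hp
  have hlim := tendsto_measure_iInter_atTop (μ := X.μ.prod X.μ)
    (s := fun n : ℕ => {p : X.carrier × X.carrier | (n : ℝ) < dist p.1 p.2})
    (fun n => (meas_dist X (n : ℝ)).nullMeasurableSet) hanti ⟨0, measure_ne_top _ _⟩
  have hempty : (⋂ n : ℕ, {p : X.carrier × X.carrier | (n : ℝ) < dist p.1 p.2}) = ∅ := by
    ext p
    simp only [mem_iInter, mem_ofPred_eq, mem_empty_iff_false, iff_false, not_forall, not_lt]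
    exact exists_nat_ge _
  rw [hempty, measure_empty] at hlim
  have h1 : ∀ᶠ n : ℕ in atTop, (X.μ.prod X.μ) {p : X.carrier × X.carrier | (n : ℝ) < dist p.1 p.2}
      < ENNReal.ofReal c := hlim.eventually (gt_mem_nhds (ENNReal.ofReal_pos.2 hc))
  obtain ⟨n, hn⟩ := h1.exists
  refine ⟨n, ?_⟩
  unfold Phi
  rw [measureReal_def]
  exact (ENNReal.lt_ofReal_iff_toReal_lt (measure_ne_top _ _)).1 hn

open TopologicalSpace in
/-- The class of a closed singleton (as a closed set). -/
def clPt (x : MMClass) : TopologicalSpace.Closeds MMClass := TopologicalSpace.Closeds.closure {x}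

theorem clPt_inter {x : MMClass} {U : Set MMClass} (hU : IsOpen U)
    (h : ((clPt x : TopologicalSpace.Closeds MMClass) : Set MMClass) ∩ U |>.Nonempty) : x ∈ U := by
  obtain ⟨y, hy, hyU⟩ := h
  have hy' : y ∈ closure ({x} : Set MMClass) := hy
  obtain ⟨z, hz1, hz2⟩ := mem_closure_iff.1 hy' U hU hyU
  rw [mem_singleton_iff.1 hz2] at hz1
  exact hz1

theorem mem_clPt_self (x : MMClass) : x ∈ (clPt x : TopologicalSpace.Closeds MMClass) :=
  subset_closure (mem_singleton x)

/-- For fixed `0 < δ < 1` the two-point spaces converge to the empty set. -/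
theorem lim_empty {δ : ℝ} (h0 : 0 < δ) (h1 : δ < 1) :
    KPLim (ι := ULift.{1} ℕ) (fun k => clPt (Quot.mk _ (twoPt δ h0.le h1.le (k.down : ℝ)))) ⊥ := by
  constructor
  · intro y hy
    exfalso
    induction y using Quot.ind with | _ Y =>
    have hc : 0 < (1 - δ) * δ := mul_pos (by linarith) h0
    obtain ⟨R, hR⟩ := exists_Phi_lt Y hc
    set U : Set MMClass := {x : MMClass | ∃ R' < R + 1, PhiQ R' x < (1 - δ) * δ} with hU
    have hUo : IsOpen U := isOpen_A _ _
    have hYU : (Quot.mk _ Y : MMClass) ∈ U := ⟨R, by linarith, hR⟩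
    obtain ⟨n, hn⟩ := exists_nat_ge (R + 1)
    obtain ⟨k, hk, hk'⟩ := hy U (hUo.mem_nhds hYU) ⟨n⟩
    have hkn : n ≤ k.down := hk
    obtain ⟨R', hR', hlt⟩ := clPt_inter hUo hk'
    have hkn' : (n : ℝ) ≤ (k.down : ℝ) := by exact_mod_cast hkn
    have h3 : (1 - δ) * δ ≤ Phi R' (twoPt δ h0.le h1.le (k.down : ℝ)) :=
      Phi_twoPt_ge h0.le h1.le (by linarith) (Nat.cast_nonneg _)
    exact absurd hlt (not_lt.2 h3)
  · intro y hy
    exact absurd hy (notMem_empty y)

/-- Two-point spaces with weights tending to `0` converge to the one-point space. -/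
theorem lim_onePt (δ : ℕ → ℝ) (h0 : ∀ n, 0 < δ n) (h1 : ∀ n, δ n < 1)
    (hδ : Tendsto δ atTop (𝓝 0)) (k : ℕ → ℝ) :
    KPLim (ι := ULift.{1} ℕ)
      (fun n => clPt (Quot.mk _ (twoPt (δ n.down) (h0 n.down).le (h1 n.down).le (k n.down))))
      (clPt (Quot.mk _ onePt)) := by
  constructor
  · intro y hy
    induction y using Quot.ind with | _ Y =>
    have hzero : ∀ r : ℝ, 0 < r → Phi r Y = 0 := by
      intro r hr
      by_contra hne
      have hpos : 0 < Phi r Y := lt_of_le_of_ne measureReal_nonneg (Ne.symm hne)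
      set c : ℝ := Phi r Y / 2 with hc
      have hc0 : 0 < c := by positivity
      set U : Set MMClass := {x : MMClass | ∃ r' > r / 2, c < PhiQ r' x} with hU
      have hUo : IsOpen U := isOpen_B _ _
      have hYU : (Quot.mk _ Y : MMClass) ∈ U := ⟨r, by linarith, by
        change c < Phi r Y
        linarith⟩
      obtain ⟨n, hn⟩ := (eventually_atTop.1 (hδ.eventually (gt_mem_nhds (half_pos hc0))))
      obtain ⟨m, hm, hm'⟩ := hy U (hUo.mem_nhds hYU) ⟨n⟩
      have hmn : n ≤ m.down := hm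
      obtain ⟨r', hr', hlt⟩ := clPt_inter hUo hm'
      have h3 : Phi r' (twoPt (δ m.down) (h0 m.down).le (h1 m.down).le (k m.down))
          ≤ 2 * δ m.down := Phi_twoPt_le _ _ (by linarith)
      have h4 := hn m.down hmn
      have h5 : c < Phi r' (twoPt (δ m.down) (h0 m.down).le (h1 m.down).le (k m.down)) := hlt
      linarith
    have hbox := eq_onePt_of_Phi Y hzero
    change (Quot.mk _ Y : MMClass) ∈ closure ({Quot.mk _ onePt} : Set MMClass)
    refine (mem_closure_iff (X := MMClass)).2 ?_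
    intro U hU hYU
    obtain ⟨ε, hε, hball⟩ := hU _ hYU
    exact ⟨_, hball (Quot.mk _ onePt) (by
      change box Y onePt < ε
      rw [hbox]
      exact hε), rfl⟩
  · intro y hy U hU
    obtain ⟨V, hVU, hVo, hyV⟩ := mem_nhds_iff.1 hU
    have hx : (Quot.mk _ onePt : MMClass) ∈ V := clPt_inter hVo ⟨y, hy, hyV⟩
    obtain ⟨ε, hε, hball⟩ := hVo _ hx
    have hev : ∀ᶠ n in atTop, ENNReal.ofReal (δ n) < ε := by
      have : Tendsto (fun n => ENNReal.ofReal (δ n)) atTop (𝓝 0) := by
        have := ENNReal.tendsto_ofReal hδ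
        simpa using this
      exact this.eventually (gt_mem_nhds hε)
    obtain ⟨N, hN⟩ := eventually_atTop.1 hev
    refine ⟨⟨N⟩, fun n hn => ?_⟩
    refine ⟨_, mem_clPt_self _, hVU (hball _ ?_)⟩
    exact lt_of_le_of_lt (box_onePt_twoPt _ _ _ _) (hN n.down hn)

/-- Convergence in `tauK`. -/
theorem tendsto_tauK {ι : Type 1} [Preorder ι] [IsDirectedOrder ι] [Nonempty ι]
    {A : ι → TopologicalSpace.Closeds MMClass} {B : TopologicalSpace.Closeds MMClass}
    (h : KPLim A B) : Tendsto A atTop (@nhds _ tauK B) := by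
  unfold tauK
  rw [nhds_sInf]
  refine tendsto_iInf.2 fun t => tendsto_iInf.2 fun ht => ?_
  exact ht ι A B h

/-- The empty set and the one-point space cannot be separated. -/
theorem not_separated (U V : Set (TopologicalSpace.Closeds MMClass))
    (hU : IsOpen[tauK] U) (hV : IsOpen[tauK] V) (hbot : ⊥ ∈ U)
    (hpt : clPt (Quot.mk _ onePt) ∈ V) : (U ∩ V).Nonempty := by
  set δ : ℕ → ℝ := fun n => 1 / ((n : ℝ) + 2) with hδdef
  have h0 : ∀ n, 0 < δ n := fun n => by positivity
  have h1 : ∀ n, δ n < 1 := fun n => by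
    simp only [hδdef]
    rw [div_lt_one (by positivity)]
    have : (0 : ℝ) ≤ n := Nat.cast_nonneg n
    linarith
  have hδ : Tendsto δ atTop (𝓝 0) := by
    have h2 : Tendsto (fun n : ℕ => 1 / (((n + 1 : ℕ) : ℝ) + 1)) atTop (𝓝 0) :=
      (tendsto_add_atTop_iff_nat (f := fun n : ℕ => 1 / ((n : ℝ) + 1)) 1).2
        tendsto_one_div_add_atTop_nhds_zero_nat
    refine h2.congr fun n => ?_
    simp only [hδdef]
    push_cast
    ring_nf
  have hk : ∀ n, ∃ k : ℕ, clPt (Quot.mk _ (twoPt (δ n) (h0 n).le (h1 n).le (k : ℝ))) ∈ U := by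
    intro n
    have := tendsto_tauK (lim_empty (h0 n) (h1 n))
    have hUn : U ∈ @nhds _ tauK (⊥ : TopologicalSpace.Closeds MMClass) :=
      (@mem_nhds_iff (TopologicalSpace.Closeds MMClass) tauK ⊥ U).2 ⟨U, subset_rfl, hU, hbot⟩
    obtain ⟨k, hk⟩ := (this.eventually hUn).exists
    exact ⟨k.down, hk⟩
  choose k hk using hk
  have h2 := tendsto_tauK (lim_onePt δ h0 h1 hδ (fun n => (k n : ℝ)))
  have hVn : V ∈ @nhds _ tauK (clPt (Quot.mk _ onePt)) :=
    (@mem_nhds_iff (TopologicalSpace.Closeds MMClass) tauK _ V).2 ⟨V, subset_rfl, hV, hpt⟩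
  obtain ⟨n, hn⟩ := (h2.eventually hVn).exists
  exact ⟨_, hk n.down, hn⟩

theorem not_t2 : ¬ @T2Space (TopologicalSpace.Closeds MMClass) tauK := by
  intro h
  have hne : (⊥ : TopologicalSpace.Closeds MMClass) ≠ clPt (Quot.mk _ onePt) := by
    intro heq
    have h1 := mem_clPt_self (Quot.mk _ onePt)
    rw [← heq] at h1
    exact notMem_empty _ h1
  obtain ⟨U, V, hU, hV, h1, h2, hd⟩ := @T2Space.t2 _ tauK h _ _ hne
  obtain ⟨x, hx⟩ := not_separated U V hU hV h1 h2
  exact Set.disjoint_left.1 hd hx.1 hx.2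

theorem not_metrizable :
    ¬ @TopologicalSpace.MetrizableSpace (TopologicalSpace.Closeds MMClass) tauK := by
  intro h
  exact not_t2 (@TopologicalSpace.t2Space_of_metrizableSpace _ tauK h)

end Pool.Agent.W5h75.Box
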