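import Mathlib

/-!
# HFC subspaces of Cantor cubes and D-spaces: definitions
-/

set_option autoImplicit false

open Set Topology

universe u

namespace Pool.Agent.W5h75.HFCs

section

variable {Λ : Type u} [LinearOrder Λ]

/-- `[F * b]`: the set of all points of the Cantor cube `2 ^ Λ` whose values at the elements of `F`, in increasing order, are the entries
of the list `b`. -/
def cyl (F : Finset Λ) (b : List Bool) : Set (Λ → Bool) :=
  {x | (F.sort (· ≤ ·)).map x = b}

/-- `X` is an HFC subspace of the Cantor cube `2 ^ Λ`: for every `n`, every 0-1-sequence `b` of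
length `n` and every infinite family `𝓕` of pairwise disjoint `n`-element subsets of `Λ`, all but
countably many points of `X` belong to one of the sets `cyl F b`, `F ∈ 𝓕`. -/
def HFC (X : Set (Λ → Bool)) : Prop :=
  ∀ (n : ℕ) (b : List Bool) (𝓕 : Set (Finset Λ)), b.length = n → 𝓕.Infinite →
    (∀ F ∈ 𝓕, F.card = n) → 𝓕.PairwiseDisjoint id → (X \ ⋃ F ∈ 𝓕, cyl F b).Countable

end

/-- `D`-spaces: every neighbourhood assignment has a closed discrete kernel. -/
def DSpace (X : Type u) [TopologicalSpace X] : Prop :=
  ∀ U : X → Set X, (∀ x, IsOpen (U x) ∧ x ∈ U x) →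
    ∃ D : Set X, IsClosed D ∧ DiscreteTopology D ∧ ⋃ x ∈ D, U x = univ

end Pool.Agent.W5h75.HFCs
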