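import Pool.Agent.W5h75.Omega1
import Pool.Agent.W5h75.HFCDefs

/-!
# HFC subspaces of Cantor cubes
-/

set_option autoImplicit false
set_option linter.unusedSectionVars false

open Set Topology
open Pool.Agent.W5h75.Omega1

universe u v

namespace Pool.Agent.W5h75.HFCs

variable {Λ : Type u} [LinearOrder Λ]


theorem agree_of_cyl {F : Finset Λ} {b : List Bool} {x y : Λ → Bool} (hx : x ∈ cyl F b)
    (hy : y ∈ cyl F b) : ∀ j ∈ F, x j = y j := by
  intro j hj
  have h : (F.sort (· ≤ ·)).map x = (F.sort (· ≤ ·)).map y := Eq.trans hx (Eq.symm hy)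
  exact List.map_inj_left.1 h j ((Finset.mem_sort _).2 hj)

theorem length_of_cyl {F : Finset Λ} {b : List Bool} {x : Λ → Bool} (hx : x ∈ cyl F b) :
    F.card = b.length := by
  have h : (F.sort (· ≤ ·)).map x = b := hx
  rw [← h, List.length_map, Finset.length_sort]

/-- The pattern of `x` on `F`. -/
def pat (F : Finset Λ) (x : Λ → Bool) : List Bool := (F.sort (· ≤ ·)).map x

theorem mem_cyl_pat (F : Finset Λ) (x : Λ → Bool) : x ∈ cyl F (pat F x) := rfl

theorem length_pat (F : Finset Λ) (x : Λ → Bool) : (pat F x).length = F.card := by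
  rw [pat, List.length_map, Finset.length_sort]

/-- A notion of largeness. -/
structure IsBig {ι : Type v} (Big : Set ι → Prop) : Prop where
  mono : ∀ S T, S ⊆ T → Big S → Big T
  union : ∀ S T, Big (S ∪ T) → Big S ∨ Big T
  empty : ¬ Big ∅

theorem isBig_infinite {ι : Type v} : IsBig (fun S : Set ι => S.Infinite) where
  mono _ _ h h' := h'.mono h
  union _ _ h := Set.infinite_union.1 h
  empty h := h Set.finite_empty

theorem isBig_uncountable {ι : Type v} : IsBig (fun S : Set ι => ¬ S.Countable) where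
  mono _ _ h h' h'' := h' (h''.mono h)
  union S T h := by
    by_contra hcon
    push Not at hcon
    exact h (hcon.1.union hcon.2)
  empty h := h Set.countable_empty

theorem IsBig.pigeonhole {ι : Type v} {Big : Set ι → Prop} (hB : IsBig Big) {β : Type*}
    (f : ι → β) {T : Set β} (hT : T.Finite) :
    ∀ {S : Set ι}, Big S → (∀ i ∈ S, f i ∈ T) → ∃ p ∈ T, Big {i ∈ S | f i = p} := by
  induction T, hT using Set.Finite.induction_on with
  | empty =>
    intro S hS h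
    exact absurd (hB.mono S ∅ (fun i hi => h i hi) hS) hB.empty
  | @insert a T _ _ ih =>
    intro S hS h
    have h1 : S = {i ∈ S | f i = a} ∪ {i ∈ S | f i ≠ a} := by
      ext i
      simp only [mem_union, mem_ofPred_eq]
      tauto
    rw [h1] at hS
    rcases hB.union _ _ hS with h2 | h2
    · exact ⟨a, mem_insert _ _, h2⟩
    · obtain ⟨p, hp, h3⟩ := ih h2 (fun i hi => ((mem_insert_iff.1 (h i hi.1)).resolve_left hi.2))
      exact ⟨p, mem_insert_of_mem _ hp, hB.mono _ _ (fun i hi => ⟨hi.1.1, hi.2⟩) h3⟩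

/-- Delta systems with maximal root. -/
theorem IsBig.delta {ι : Type v} {Big : Set ι → Prop} (hB : IsBig Big) (G : ι → Finset Λ)
    (a : ι → Λ → Bool) (m : ℕ) (S : Set ι) (hS : Big S) (hm : ∀ i ∈ S, (G i).card ≤ m) :
    ∃ (R : Finset Λ) (t : Λ → Bool) (p : List Bool), ∃ S' ⊆ S, Big S' ∧
      (∀ i ∈ S', R ⊆ G i ∧ (∀ j ∈ R, a i j = t j) ∧ pat (G i \ R) (a i) = p) ∧
      ∀ j ∉ R, ¬ Big {i ∈ S' | j ∈ G i} := by
  classical
  let A : Finset Λ → (Λ → Bool) → Set ι := fun R t => {i ∈ S | R ⊆ G i ∧ ∀ j ∈ R, a i j = t j}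
  let P : ℕ → Prop := fun k => ∃ R t, R.card = k ∧ Big (A R t)
  have hP0 : P 0 := by
    refine ⟨∅, fun _ => false, rfl, hB.mono _ _ ?_ hS⟩
    intro i hi
    exact ⟨hi, by simp⟩
  have hPm : ∀ k, P k → k ≤ m := by
    rintro k ⟨R, t, rfl, h⟩
    obtain ⟨i, hi⟩ : (A R t).Nonempty := by
      rw [Set.nonempty_iff_ne_empty]
      intro h'
      rw [h'] at h
      exact hB.empty h
    exact (Finset.card_le_card hi.2.1).trans (hm i hi.1)
  obtain ⟨k, ⟨R, t, hR, hbig⟩, hk⟩ : ∃ k, P k ∧ ¬ P (k + 1) := by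
    by_contra hcon
    push Not at hcon
    have h : ∀ k, P k := by
      intro k
      induction k with
      | zero => exact hP0
      | succ k ih => exact hcon k ih
    exact absurd (hPm _ (h (m + 1))) (by omega)
  have h1 : ∀ j ∉ R, ¬ Big {i ∈ A R t | j ∈ G i} := by
    intro j hj hbig'
    apply hk
    have h2 : {i ∈ A R t | j ∈ G i} ⊆ A (insert j R) (Function.update t j true) ∪
        A (insert j R) (Function.update t j false) := by
      rintro i ⟨⟨hi1, hi2, hi3⟩, hi4⟩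
      have h3 : ∀ b : Bool, a i j = b → i ∈ A (insert j R) (Function.update t j b) := by
        intro b hb
        refine ⟨hi1, Finset.insert_subset hi4 hi2, ?_⟩
        intro j' hj'
        rcases Finset.mem_insert.1 hj' with rfl | hj'
        · rw [Function.update_self, hb]
        · have : j' ≠ j := fun h => hj (h ▸ hj')
          rw [Function.update_of_ne this, hi3 j' hj']
      cases hb : a i j
      · exact Or.inr (h3 false hb)
      · exact Or.inl (h3 true hb)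
    rcases hB.union _ _ (hB.mono _ _ h2 hbig') with h3 | h3
    · exact ⟨_, _, by rw [Finset.card_insert_of_notMem hj, hR], h3⟩
    · exact ⟨_, _, by rw [Finset.card_insert_of_notMem hj, hR], h3⟩
  have hfin : {l : List Bool | l.length ≤ m}.Finite := List.finite_length_le Bool m
  obtain ⟨p, -, hp⟩ := hB.pigeonhole (fun i => pat (G i \ R) (a i)) hfin hbig (by
    intro i hi
    rw [mem_ofPred_eq, length_pat]
    exact (Finset.card_le_card Finset.sdiff_subset).trans (hm i hi.1))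
  refine ⟨R, t, p, {i ∈ A R t | pat (G i \ R) (a i) = p}, fun i hi => hi.1.1, hp, ?_, ?_⟩
  · rintro i ⟨hi1, hi2⟩
    exact ⟨hi1.2.1, hi1.2.2, hi2⟩
  · intro j hj hbig'
    exact h1 j hj (hB.mono _ _ (fun i hi => ⟨hi.1.1, hi.2⟩) hbig')

/-- Two points with the same pattern outside of the root. -/
theorem agree_of_pat {G R : Finset Λ} {x y t : Λ → Bool} {p : List Bool}
    (hx2 : ∀ j ∈ R, x j = t j) (hy2 : ∀ j ∈ R, y j = t j)
    (hx : x ∈ cyl (G \ R) p) (hy : y ∈ cyl (G \ R) p) : ∀ j ∈ G, x j = y j := by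
  intro j hj
  by_cases hjR : j ∈ R
  · rw [hx2 j hjR, hy2 j hjR]
  · exact agree_of_cyl hx hy j (Finset.mem_sdiff.2 ⟨hj, hjR⟩)

/-- HFC spaces are hereditarily Lindelöf. -/
theorem lindelof {X : Set (Λ → Bool)} (hX : HFC X) {Z : Set (Λ → Bool)} (hZ : Z ⊆ X)
    (G : (Λ → Bool) → Finset Λ) :
    ∃ C ⊆ Z, C.Countable ∧ ∀ z ∈ Z, ∃ c ∈ C, ∀ j ∈ G c, z j = c j := by
  classical
  by_contra hcon
  push Not at hcon
  obtain ⟨f, hf⟩ := exists_seq (fun (C : Set (Λ → Bool)) z => z ∈ Z ∧ ∀ c ∈ C, c ∈ Z →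
    ∃ j ∈ G c, z j ≠ c j) (by
      intro C hC
      obtain ⟨z, hz, h⟩ := hcon (C ∩ Z) inter_subset_right (hC.mono inter_subset_left)
      exact ⟨z, hz, fun c hc hcZ => h c ⟨hc, hcZ⟩⟩)
  have hfZ : ∀ ξ, f ξ ∈ Z := fun ξ => (hf ξ).1
  have hfG : ∀ η ξ, η < ξ → ∃ j ∈ G (f η), f ξ j ≠ f η j := fun η ξ h =>
    (hf ξ).2 (f η) ⟨η, h, rfl⟩ (hfZ η)
  have hinj : Function.Injective f := by
    intro η ξ h
    rcases lt_trichotomy η ξ with h' | h' | h'
    · obtain ⟨j, -, hj⟩ := hfG η ξ h'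
      rw [h] at hj
      exact absurd rfl hj
    · exact h'
    · obtain ⟨j, -, hj⟩ := hfG ξ η h'
      rw [h] at hj
      exact absurd rfl hj
  obtain ⟨m, hm⟩ : ∃ m : ℕ, ¬ {ξ : W | (G (f ξ)).card = m}.Countable := by
    by_contra hcon
    push Not at hcon
    apply Omega1.not_countable_univ
    refine (countable_iUnion hcon).mono ?_
    intro ξ _
    exact mem_iUnion.2 ⟨_, rfl⟩
  obtain ⟨R, t, p, S', -, hS', hS'1, hS'2⟩ := isBig_uncountable.delta (fun ξ => G (f ξ)) f m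
    {ξ : W | (G (f ξ)).card = m} hm (fun ξ hξ => le_of_eq hξ)
  have hS'2 : ∀ j ∉ R, {ξ ∈ S' | j ∈ G (f ξ)}.Countable := fun j hj => not_not.1 (hS'2 j hj)
  by_cases hp : p = []
  · -- all `G (f ξ)` are equal to `R`
    have h1 : ∀ ξ ∈ S', G (f ξ) ⊆ R := by
      intro ξ hξ
      have h2 := (hS'1 ξ hξ).2.2
      have h3 : (G (f ξ) \ R).card = 0 := by
        rw [← length_pat _ (f ξ), h2, hp]
        rfl
      exact Finset.sdiff_eq_empty_iff_subset.1 (Finset.card_eq_zero.1 h3)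
    obtain ⟨η, hη⟩ : S'.Nonempty := by
      rw [Set.nonempty_iff_ne_empty]
      intro h
      rw [h] at hS'
      exact hS' countable_empty
    obtain ⟨ξ, hξ, hηξ⟩ : ∃ ξ ∈ S', η < ξ := by
      by_contra hcon
      push Not at hcon
      exact hS' ((countable_Iic η).mono hcon)
    obtain ⟨j, hj, hne⟩ := hfG η ξ hηξ
    have hjR := h1 η hη hj
    exact hne (((hS'1 ξ hξ).2.1 j hjR).trans ((hS'1 η hη).2.1 j hjR).symm)
  · obtain ⟨s, hs1, hs2⟩ := exists_seq_of_forall_finset_exists (fun ξ => ξ ∈ S')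
      (fun η ξ => Disjoint (G (f η) \ R) (G (f ξ) \ R)) (by
        intro s hs
        by_contra hcon
        push Not at hcon
        apply hS'
        have h1 : S' ⊆ ⋃ η ∈ s, ⋃ j ∈ G (f η) \ R, {ξ ∈ S' | j ∈ G (f ξ)} := by
          intro ξ hξ
          obtain ⟨η, hη, hd⟩ := hcon ξ hξ
          rw [Finset.not_disjoint_iff] at hd
          obtain ⟨j, hj1, hj2⟩ := hd
          exact mem_iUnion₂.2 ⟨η, hη, mem_iUnion₂.2 ⟨j, hj1, hξ, (Finset.mem_sdiff.1 hj2).1⟩⟩
        refine Countable.mono h1 ?_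
        refine s.countable_toSet.biUnion fun η _ => ?_
        refine (G (f η) \ R).countable_toSet.biUnion fun j hj => ?_
        exact hS'2 j (Finset.mem_sdiff.1 hj).2)
    have hcard : ∀ n, (G (f (s n)) \ R).card = p.length := by
      intro n
      rw [← (hS'1 _ (hs1 n)).2.2, length_pat]
    have hdisj : ∀ m n, m ≠ n → Disjoint (G (f (s m)) \ R) (G (f (s n)) \ R) := by
      intro m n hmn
      rcases lt_or_gt_of_ne hmn with h | h
      · exact hs2 m n h
      · exact (hs2 n m h).symm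
    have hpos : 0 < p.length := List.length_pos_iff.2 hp
    have hinj' : Function.Injective fun n => G (f (s n)) \ R := by
      intro m n hmn
      by_contra hne
      have h1 := hdisj m n hne
      simp only at hmn
      rw [hmn, disjoint_self, Finset.bot_eq_empty] at h1
      have h2 := hcard n
      rw [h1] at h2
      simp at h2
      omega
    have hE := hX p.length p (range fun n => G (f (s n)) \ R) rfl (infinite_range_of_injective hinj')
      (by rintro _ ⟨n, rfl⟩; exact hcard n) (by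
        rintro _ ⟨m, rfl⟩ _ ⟨n, rfl⟩ hmn
        exact hdisj m n fun h => hmn (by rw [h]))
    have h1 : {ξ : W | f ξ ∈ X \ ⋃ F ∈ range fun n => G (f (s n)) \ R, cyl F p}.Countable :=
      hE.preimage_of_injOn hinj.injOn
    obtain ⟨b, hb⟩ := exists_gt_seq s
    obtain ⟨ξ, hξ, hξ1, hξ2⟩ : ∃ ξ ∈ S', b ≤ ξ ∧
        ξ ∉ {ξ : W | f ξ ∈ X \ ⋃ F ∈ range fun n => G (f (s n)) \ R, cyl F p} := by
      by_contra hcon
      push Not at hcon
      apply hS'
      refine ((countable_Iio b).union h1).mono ?_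
      intro ξ hξ
      rcases lt_or_ge ξ b with h | h
      · exact Or.inl h
      · exact Or.inr (hcon ξ hξ h)
    have hξ3 : f ξ ∈ ⋃ F ∈ range fun n => G (f (s n)) \ R, cyl F p := by
      by_contra h
      exact hξ2 ⟨hZ (hfZ ξ), h⟩
    obtain ⟨F, ⟨n, rfl⟩, hn⟩ := mem_iUnion₂.1 hξ3
    obtain ⟨j, hj, hne⟩ := hfG (s n) ξ ((hb n).trans_le hξ1)
    have h4 : f (s n) ∈ cyl (G (f (s n)) \ R) p := (hS'1 _ (hs1 n)).2.2
    exact hne (agree_of_pat (hS'1 ξ hξ).2.1 (hS'1 _ (hs1 n)).2.1 hn h4 j hj)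

/-- The points of `Y` all whose neighbourhoods contain uncountably many points of `Y`. -/
def star (Y : Set (Λ → Bool)) : Set (Λ → Bool) :=
  {x ∈ Y | ∀ G : Finset Λ, ¬ {y ∈ Y | ∀ j ∈ G, y j = x j}.Countable}

theorem star_subset (Y : Set (Λ → Bool)) : star Y ⊆ Y := fun _ h => h.1

theorem star_mono {Y Y' : Set (Λ → Bool)} (h : Y ⊆ Y') : star Y ⊆ star Y' := by
  intro x hx
  refine ⟨h hx.1, fun G hG => hx.2 G (hG.mono ?_)⟩
  intro y hy
  exact ⟨h hy.1, hy.2⟩

theorem star_countable {X : Set (Λ → Bool)} (hX : HFC X) {Y : Set (Λ → Bool)} (hY : Y ⊆ X) :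
    (Y \ star Y).Countable := by
  have h1 : ∀ z : Λ → Bool, ∃ G : Finset Λ, z ∈ Y \ star Y →
      {y ∈ Y | ∀ j ∈ G, y j = z j}.Countable := by
    intro z
    by_cases hz : z ∈ Y \ star Y
    · by_contra hcon
      push Not at hcon
      exact hz.2 ⟨hz.1, fun G => (hcon G).2⟩
    · exact ⟨∅, fun h => absurd h hz⟩
  choose G hG using h1
  obtain ⟨C, hCZ, hC, h2⟩ := lindelof hX (sdiff_subset.trans hY : Y \ star Y ⊆ X) G
  refine (hC.biUnion fun c hc => hG c (hCZ hc)).mono ?_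
  intro z hz
  obtain ⟨c, hc, h3⟩ := h2 z hz
  exact mem_iUnion₂.2 ⟨c, hc, hz.1, h3⟩

/-- Locally finite (equivalently, closed discrete) sets. -/
def LF (X E : Set (Λ → Bool)) : Prop :=
  ∀ x ∈ X, ∃ G : Finset Λ, {y ∈ E | ∀ j ∈ G, y j = x j}.Finite

theorem LF.mono {X E E' : Set (Λ → Bool)} (h : LF X E) (hE : E' ⊆ E) : LF X E' := fun x hx => by
  obtain ⟨G, hG⟩ := h x hx
  exact ⟨G, hG.subset fun y hy => ⟨hE hy.1, hy.2⟩⟩

theorem LF.union {X E E' : Set (Λ → Bool)} (h : LF X E) (h' : LF X E') : LF X (E ∪ E') := by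
  classical
  intro x hx
  obtain ⟨G, hG⟩ := h x hx
  obtain ⟨G', hG'⟩ := h' x hx
  refine ⟨G ∪ G', (hG.union hG').subset ?_⟩
  rintro y ⟨hy | hy, hy'⟩
  · exact Or.inl ⟨hy, fun j hj => hy' j (Finset.mem_union_left _ hj)⟩
  · exact Or.inr ⟨hy, fun j hj => hy' j (Finset.mem_union_right _ hj)⟩

theorem LF.of_finite {X E : Set (Λ → Bool)} (h : E.Finite) : LF X E := fun _ _ =>
  ⟨∅, h.subset fun _ hy => hy.1⟩

/-- Locally finite sequences. -/
theorem lf_range {X : Set (Λ → Bool)} {e : ℕ → Λ → Bool} (heX : ∀ n, e n ∈ X)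
    (h : ∀ x ∈ X, ∃ G : Finset Λ, {n | ∀ j ∈ G, e n j = x j}.Finite) :
    (range e).Infinite ∧ LF X (range e) := by
  constructor
  · intro hfin
    have := hfin.to_subtype
    obtain ⟨y, hy⟩ := Finite.exists_infinite_fiber (fun n : ℕ => (⟨e n, n, rfl⟩ : range e))
    obtain ⟨k, hk⟩ : ∃ k, e k = y.1 := y.2
    obtain ⟨G, hG⟩ := h (e k) (heX k)
    have h1 : {n | ∀ j ∈ G, e n j = e k j}.Infinite := by
      refine Set.Infinite.mono ?_ (Set.infinite_coe_iff.1 hy)
      intro n hn j _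
      have h2 : e n = y.1 := congrArg Subtype.val (hn : (⟨e n, n, rfl⟩ : Set.range e) = y)
      rw [h2, hk]
    exact h1 hG
  · intro x hx
    obtain ⟨G, hG⟩ := h x hx
    refine ⟨G, (hG.image e).subset ?_⟩
    rintro _ ⟨⟨n, rfl⟩, hn⟩
    exact ⟨n, hn, rfl⟩

theorem cyl_singleton (j : Λ) (c : Bool) : cyl {j} [c] = {x : Λ → Bool | x j = c} := by
  ext x
  simp [cyl]

theorem finite_bad {X : Set (Λ → Bool)} (hX : HFC X) {Y : Set (Λ → Bool)}
    (hY : Y ⊆ X) (hunc : ¬ Y.Countable) (c : Bool) :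
    {j : Λ | {y ∈ Y | y j = c}.Countable}.Finite := by
  classical
  by_contra hinf
  obtain ⟨J, hJ, hJc, hJinf⟩ := Set.Infinite.exists_subset_countable_infinite hinf
  have h1 := hX 1 [c] ((fun j => ({j} : Finset Λ)) '' J) rfl
    (hJinf.image (Finset.singleton_injective.injOn)) (by
      rintro _ ⟨j, -, rfl⟩
      exact Finset.card_singleton j) (by
      rintro _ ⟨j, -, rfl⟩ _ ⟨j', -, rfl⟩ hne
      show Disjoint ({j} : Finset Λ) {j'}
      rw [Finset.disjoint_singleton]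
      rintro rfl
      exact hne rfl)
  apply hunc
  refine (h1.union (hJc.biUnion fun j hj => hJ hj)).mono ?_
  intro y hy
  by_cases h : y ∈ ⋃ F ∈ (fun j => ({j} : Finset Λ)) '' J, cyl F [c]
  · right
    obtain ⟨_, ⟨j, hj, rfl⟩, hyj⟩ := mem_iUnion₂.1 h
    rw [cyl_singleton] at hyj
    exact mem_iUnion₂.2 ⟨j, hj, hy, hyj⟩
  · exact Or.inl ⟨hY hy, h⟩

theorem bool_eq_or (b : Bool) : b = true ∨ b = false := by cases b <;> simp

/-- Uncountable subsets contain infinite closed discrete sets. -/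
theorem exists_lf [Uncountable Λ] {X : Set (Λ → Bool)} (hX : HFC X) {Y : Set (Λ → Bool)}
    (hY : Y ⊆ X) (hunc : ¬ Y.Countable) : ∃ E ⊆ Y, E.Infinite ∧ LF X E := by
  classical
  -- the coordinates where the sequence converges to `false`
  obtain ⟨s, hs⟩ : ∃ s : ℕ → Finset Λ, (∀ n, s n ⊆ s (n + 1) ∧ (s n).card = n) ∧
      ∀ n, ¬ {y ∈ Y | ∀ j ∈ s n, y j = false}.Countable := by
    have hstep : ∀ p : {F : Finset Λ // ¬ {y ∈ Y | ∀ j ∈ F, y j = false}.Countable},
        ∃ q : {F : Finset Λ // ¬ {y ∈ Y | ∀ j ∈ F, y j = false}.Countable},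
          p.1 ⊆ q.1 ∧ q.1.card = p.1.card + 1 := by
      rintro ⟨F, hF⟩
      have h1 := finite_bad hX ((sep_subset _ _).trans hY) hF false
      obtain ⟨j, hj⟩ := (h1.union F.finite_toSet).infinite_compl.nonempty
      rw [mem_compl_iff, mem_union, not_or] at hj
      refine ⟨⟨insert j F, ?_⟩, Finset.subset_insert _ _, Finset.card_insert_of_notMem hj.2⟩
      intro hc
      refine hj.1 (hc.mono ?_)
      rintro y ⟨⟨hy1, hy2⟩, hy3⟩
      refine ⟨hy1, fun j' hj' => ?_⟩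
      rcases Finset.mem_insert.1 hj' with rfl | h
      · exact hy3
      · exact hy2 j' h
    choose g hg1 hg2 using hstep
    have h0 : ¬ {y ∈ Y | ∀ j ∈ (∅ : Finset Λ), y j = false}.Countable := by
      simpa using hunc
    let t : ℕ → {F : Finset Λ // ¬ {y ∈ Y | ∀ j ∈ F, y j = false}.Countable} :=
      fun n => Nat.rec ⟨∅, h0⟩ (fun _ p => g p) n
    have ht : ∀ n, t (n + 1) = g (t n) := fun n => rfl
    refine ⟨fun n => (t n).1, fun n => ⟨?_, ?_⟩, fun n => (t n).2⟩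
    · exact hg1 (t n)
    · induction n with
      | zero => rfl
      | succ n ih => exact (hg2 (t n)).trans (congrArg (· + 1) ih)
  obtain ⟨hs1, hs2⟩ := hs
  have hmono : Monotone s := monotone_nat_of_le_succ fun n => (hs1 n).1
  set J : Set Λ := ⋃ n, (s n : Set Λ) with hJ
  have hJinf : J.Infinite := by
    intro hfin
    have h1 : ∀ n, n ≤ hfin.toFinset.card := by
      intro n
      rw [← (hs1 n).2]
      refine Finset.card_le_card fun j hj => ?_
      rw [Set.Finite.mem_toFinset]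
      exact mem_iUnion.2 ⟨n, hj⟩
    exact absurd (h1 (hfin.toFinset.card + 1)) (by omega)
  have hZ : {x ∈ X | ∀ j ∈ J, x j = false}.Countable := by
    have h1 := hX 1 [true] ((fun j => ({j} : Finset Λ)) '' J) rfl
      (hJinf.image (Finset.singleton_injective.injOn)) (by
        rintro _ ⟨j, -, rfl⟩
        exact Finset.card_singleton j) (by
        rintro _ ⟨j, -, rfl⟩ _ ⟨j', -, rfl⟩ hne
        show Disjoint ({j} : Finset Λ) {j'}
        rw [Finset.disjoint_singleton]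
        rintro rfl
        exact hne rfl)
    refine h1.mono ?_
    rintro x ⟨hx1, hx2⟩
    refine ⟨hx1, fun h => ?_⟩
    obtain ⟨_, ⟨j, hj, rfl⟩, hxj⟩ := mem_iUnion₂.1 h
    rw [cyl_singleton] at hxj
    have := hx2 j hj
    rw [(hxj : x j = true)] at this
    exact absurd this (by simp)
  obtain ⟨z, hz⟩ := Set.countable_iff_exists_subset_range.1 hZ
  -- avoiding neighbourhoods of the points `z k`
  obtain ⟨g, hg⟩ : ∃ g : ℕ → Λ, ∀ k n,
      ¬ {y ∈ Y | (∀ j ∈ s n, y j = false) ∧ ∀ i < k, y (g i) ≠ z i (g i)}.Countable := by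
    have hstep : ∀ (p : {Q : Set (Λ → Bool) //
        ∀ n, ¬ ({y ∈ Y | ∀ j ∈ s n, y j = false} ∩ Q).Countable}) (z : Λ → Bool),
        ∃ j : Λ, ∀ n, ¬ ({y ∈ Y | ∀ j ∈ s n, y j = false} ∩ (p.1 ∩ {y | y j ≠ z j})).Countable := by
      rintro ⟨Q, hQ⟩ z
      have h1 : (⋃ n, ⋃ c : Bool,
          {j : Λ | {y ∈ {y ∈ Y | ∀ j ∈ s n, y j = false} ∩ Q | y j = c}.Countable}).Countable := by
        refine countable_iUnion fun n => countable_iUnion fun c => ?_
        refine (finite_bad hX ?_ (hQ n) c).countable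
        rintro y ⟨⟨hy, -⟩, -⟩
        exact hY hy
      obtain ⟨j, hj⟩ : ∃ j, j ∉ (⋃ n, ⋃ c : Bool,
          {j : Λ | {y ∈ {y ∈ Y | ∀ j ∈ s n, y j = false} ∩ Q | y j = c}.Countable}) := by
        by_contra hcon
        push Not at hcon
        exact Set.not_countable_univ (h1.mono fun j _ => hcon j)
      refine ⟨j, fun n hc => hj ?_⟩
      refine mem_iUnion.2 ⟨n, mem_iUnion.2 ⟨!(z j), hc.mono ?_⟩⟩
      rintro y ⟨⟨hy1, hy2⟩, hy3⟩
      refine ⟨hy1, hy2, ?_⟩
      rw [mem_ofPred_eq, hy3]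
      cases z j <;> simp
    choose nx hnx using hstep
    have h0 : ∀ n, ¬ ({y ∈ Y | ∀ j ∈ s n, y j = false} ∩ univ).Countable := by
      intro n
      rw [inter_univ]
      exact hs2 n
    let t : ℕ → {Q : Set (Λ → Bool) //
        ∀ n, ¬ ({y ∈ Y | ∀ j ∈ s n, y j = false} ∩ Q).Countable} :=
      fun n => Nat.rec ⟨univ, h0⟩ (fun k p => ⟨p.1 ∩ {y | y (nx p (z k)) ≠ z k (nx p (z k))},
        hnx p (z k)⟩) n
    have ht : ∀ k, (t (k + 1)).1 = (t k).1 ∩ {y | y (nx (t k) (z k)) ≠ z k (nx (t k) (z k))} :=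
      fun k => rfl
    have ht2 : ∀ k, ∀ y ∈ (t k).1, ∀ i < k, y (nx (t i) (z i)) ≠ z i (nx (t i) (z i)) := by
      intro k
      induction k with
      | zero =>
        intro y _ i hi
        exact absurd hi (Nat.not_lt_zero i)
      | succ k ih =>
        intro y hy i hi
        rw [ht] at hy
        rcases Nat.lt_succ_iff_lt_or_eq.1 hi with h | rfl
        · exact ih y hy.1 i h
        · exact hy.2
    refine ⟨fun k => nx (t k) (z k), fun k n hc => (t k).2 n (hc.mono ?_)⟩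
    rintro y ⟨⟨hy1, hy2⟩, hy3⟩
    exact ⟨hy1, hy2, ht2 k y hy3⟩
  have hne : ∀ n, ∃ y ∈ Y, (∀ j ∈ s n, y j = false) ∧ ∀ i < n, y (g i) ≠ z i (g i) := by
    intro n
    have h1 : {y ∈ Y | (∀ j ∈ s n, y j = false) ∧ ∀ i < n, y (g i) ≠ z i (g i)}.Nonempty := by
      rw [Set.nonempty_iff_ne_empty]
      intro h
      exact hg n n (h ▸ countable_empty)
    obtain ⟨y, hy1, hy2⟩ := h1
    exact ⟨y, hy1, hy2⟩
  choose e he1 he2 he3 using hne
  have key := lf_range (X := X) (e := e) (fun n => hY (he1 n)) (by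
    intro x hx
    by_cases hxJ : ∀ j ∈ J, x j = false
    · obtain ⟨k, rfl⟩ := hz ⟨hx, hxJ⟩
      refine ⟨{g k}, (Set.finite_Iic k).subset ?_⟩
      intro n hn
      by_contra hkn
      exact he3 n k (not_le.1 hkn) (hn (g k) (Finset.mem_singleton_self _))
    · push Not at hxJ
      obtain ⟨j, hj, hxj⟩ := hxJ
      obtain ⟨k, hk⟩ := mem_iUnion.1 hj
      refine ⟨{j}, (Set.finite_Iio k).subset ?_⟩
      intro n hn
      by_contra hkn
      have h1 : e n j = false := he2 n j (hmono (not_lt.1 hkn) hk)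
      have h2 : e n j = x j := hn j (Finset.mem_singleton_self _)
      exact hxj (h2 ▸ h1))
  exact ⟨range e, by rintro _ ⟨n, rfl⟩; exact he1 n, key.1, key.2⟩

/-! ### Types of infinite sets -/

/-- The chosen neighbourhood of `x`. -/
def V (F : (Λ → Bool) → Finset Λ) (x : Λ → Bool) : Set (Λ → Bool) := {y | ∀ j ∈ F x, y j = x j}

theorem mem_V_self (F : (Λ → Bool) → Finset Λ) (x : Λ → Bool) : x ∈ V F x := fun _ _ => rfl

/-- The infinite set `E` is a `Δ`-system with root `R`, and `t` on the root. -/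
structure Typed (F : (Λ → Bool) → Finset Λ) (E : Set (Λ → Bool)) (R : Finset Λ) (t : Λ → Bool)
    (p : List Bool) : Prop where
  inf : E.Infinite
  root : ∀ y ∈ E, R ⊆ F y
  eq : ∀ y ∈ E, ∀ j ∈ R, y j = t j
  pat : ∀ y ∈ E, pat (F y \ R) y = p
  fin : ∀ j ∉ R, {y ∈ E | j ∈ F y}.Finite

theorem exists_typed {F : (Λ → Bool) → Finset Λ} {E : Set (Λ → Bool)} (hE : E.Infinite) {m : ℕ}
    (hm : ∀ y ∈ E, (F y).card ≤ m) : ∃ E' ⊆ E, ∃ R t p, R.card ≤ m ∧ Typed F E' R t p := by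
  obtain ⟨R, t, p, S', hS', h1, h2, h3⟩ := isBig_infinite.delta F id m E hE hm
  obtain ⟨y, hy⟩ := h1.nonempty
  refine ⟨S', hS', R, t, p, (Finset.card_le_card (h2 y hy).1).trans (hm y (hS' hy)), h1,
    fun y hy => (h2 y hy).1, fun y hy => (h2 y hy).2.1, fun y hy => (h2 y hy).2.2,
    fun j hj => Set.not_infinite.1 (h3 j hj)⟩

theorem Typed.finite_meet {F : (Λ → Bool) → Finset Λ} {E : Set (Λ → Bool)} {R : Finset Λ}
    {t : Λ → Bool} {p : List Bool} (h : Typed F E R t p) (K : Finset Λ) :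
    {y ∈ E | ¬ Disjoint (F y \ R) K}.Finite := by
  classical
  refine ((K \ R).finite_toSet.biUnion fun j hj => h.fin j (Finset.mem_sdiff.1 hj).2).subset ?_
  rintro y ⟨hy, hd⟩
  rw [Finset.not_disjoint_iff] at hd
  obtain ⟨j, hj1, hj2⟩ := hd
  rw [Finset.mem_sdiff] at hj1
  exact mem_iUnion₂.2 ⟨j, Finset.mem_coe.2 (Finset.mem_sdiff.2 ⟨hj2, hj1.2⟩), hy, hj1.1⟩

theorem Typed.cov {X : Set (Λ → Bool)} (hX : HFC X) {F : (Λ → Bool) → Finset Λ}
    {E : Set (Λ → Bool)} {R : Finset Λ} {t : Λ → Bool} {p : List Bool} (h : Typed F E R t p) :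
    ({x ∈ X | ∀ j ∈ R, x j = t j} \ ⋃ y ∈ E, V F y).Countable := by
  classical
  by_cases hp : p = []
  · convert countable_empty
    rw [Set.eq_empty_iff_forall_notMem]
    rintro x ⟨⟨-, hx⟩, hx'⟩
    obtain ⟨y, hy⟩ := h.inf.nonempty
    apply hx'
    refine mem_iUnion₂.2 ⟨y, hy, ?_⟩
    have h3 : (F y \ R).card = 0 := by
      rw [← length_pat _ y, h.pat y hy, hp]
      rfl
    intro j hj
    have hjR := Finset.sdiff_eq_empty_iff_subset.1 (Finset.card_eq_zero.1 h3) hj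
    rw [hx j hjR, h.eq y hy j hjR]
  · obtain ⟨s, hs1, hs2⟩ := exists_seq_of_forall_finset_exists (fun y => y ∈ E)
      (fun y y' => Disjoint (F y \ R) (F y' \ R)) (by
        intro s _
        obtain ⟨y, hy1, hy2⟩ := (h.inf.sdiff (h.finite_meet (s.biUnion F))).nonempty
        refine ⟨y, hy1, fun x hx => ?_⟩
        have h1 : Disjoint (F y \ R) (s.biUnion F) := by
          by_contra hd
          exact hy2 ⟨hy1, hd⟩
        exact (h1.mono_right (Finset.sdiff_subset.trans (Finset.subset_biUnion_of_mem F hx))).symm)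
    have hcard : ∀ n, (F (s n) \ R).card = p.length := by
      intro n
      rw [← h.pat _ (hs1 n), length_pat]
    have hdisj : ∀ m n, m ≠ n → Disjoint (F (s m) \ R) (F (s n) \ R) := by
      intro m n hmn
      rcases lt_or_gt_of_ne hmn with h | h
      · exact hs2 m n h
      · exact (hs2 n m h).symm
    have hpos : 0 < p.length := List.length_pos_iff.2 hp
    have hinj' : Function.Injective fun n => F (s n) \ R := by
      intro m n hmn
      by_contra hne
      have h1 := hdisj m n hne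
      simp only at hmn
      rw [hmn, disjoint_self, Finset.bot_eq_empty] at h1
      have h2 := hcard n
      rw [h1] at h2
      simp at h2
      omega
    have hE := hX p.length p (range fun n => F (s n) \ R) rfl (infinite_range_of_injective hinj')
      (by rintro _ ⟨n, rfl⟩; exact hcard n) (by
        rintro _ ⟨m, rfl⟩ _ ⟨n, rfl⟩ hmn
        exact hdisj m n fun h => hmn (by rw [h]))
    refine hE.mono ?_
    rintro x ⟨⟨hx1, hx2⟩, hx3⟩
    refine ⟨hx1, fun hx4 => hx3 ?_⟩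
    obtain ⟨_, ⟨n, rfl⟩, hn⟩ := mem_iUnion₂.1 hx4
    refine mem_iUnion₂.2 ⟨s n, hs1 n, ?_⟩
    exact agree_of_pat hx2 (h.eq _ (hs1 n)) hn (h.pat _ (hs1 n))

/-- The points of `X` which are not covered by the neighbourhoods of the points of `D`. -/
def Hd (X : Set (Λ → Bool)) (F : (Λ → Bool) → Finset Λ) (D : Set (Λ → Bool)) : Set (Λ → Bool) :=
  {x ∈ X | ∀ d ∈ D, x ∉ V F d}

theorem Hd_anti {X : Set (Λ → Bool)} {F : (Λ → Bool) → Finset Λ} {D D' : Set (Λ → Bool)}
    (h : D ⊆ D') : Hd X F D' ⊆ Hd X F D := fun _ hx => ⟨hx.1, fun d hd => hx.2 d (h hd)⟩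

/-- The uncovered points with small support of the chosen neighbourhood. -/
def Yd (X : Set (Λ → Bool)) (F : (Λ → Bool) → Finset Λ) (m : ℕ) (D : Set (Λ → Bool)) :
    Set (Λ → Bool) := {x ∈ Hd X F D | (F x).card ≤ m}

theorem Yd_anti {X : Set (Λ → Bool)} {F : (Λ → Bool) → Finset Λ} {m : ℕ} {D D' : Set (Λ → Bool)}
    (h : D ⊆ D') : Yd X F m D' ⊆ Yd X F m D := fun _ hx => ⟨Hd_anti h hx.1, hx.2⟩

/-- admissible extensions -/
structure Adm (X : Set (Λ → Bool)) (F : (Λ → Bool) → Finset Λ) (D₀ D : Set (Λ → Bool)) : Prop where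
  sub : D₀ ⊆ D
  subX : D ⊆ X
  lf : LF X D
  stick : ∀ d ∈ D, d ∉ D₀ → d ∈ Hd X F D₀

theorem Adm.refl {X : Set (Λ → Bool)} {F : (Λ → Bool) → Finset Λ} {D₀ : Set (Λ → Bool)}
    (h : D₀ ⊆ X) (h' : LF X D₀) : Adm X F D₀ D₀ := ⟨Subset.rfl, h, h', fun _ h h' => absurd h h'⟩

theorem Adm.trans {X : Set (Λ → Bool)} {F : (Λ → Bool) → Finset Λ} {D₀ D D' : Set (Λ → Bool)}
    (h : Adm X F D₀ D) (h' : Adm X F D D') : Adm X F D₀ D' := by
  refine ⟨h.sub.trans h'.sub, h'.subX, h'.lf, fun d hd hd0 => ?_⟩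
  by_cases hdD : d ∈ D
  · exact h.stick d hdD hd0
  · exact Hd_anti h.sub (h'.stick d hd hdD)

/-- Adding a locally finite set of uncovered points. -/
theorem Adm.add {X : Set (Λ → Bool)} {F : (Λ → Bool) → Finset Λ} {D₀ D E : Set (Λ → Bool)}
    (h : Adm X F D₀ D) (hE : E ⊆ Hd X F D₀) (hE' : LF X E) : Adm X F D₀ (D ∪ E) := by
  refine ⟨h.sub.trans subset_union_left, union_subset h.subX fun e he => (hE he).1,
    h.lf.union hE', ?_⟩
  rintro d (hd | hd) hd0
  · exact h.stick d hd hd0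
  · exact hE hd

/-- There is a locally finite set of type with root of size `k`. -/
def Ty (X : Set (Λ → Bool)) (F : (Λ → Bool) → Finset Λ) (Y : Set (Λ → Bool)) (k : ℕ) : Prop :=
  ∃ E ⊆ star Y, LF X E ∧ ∃ R t p, R.card = k ∧ Typed F E R t p

theorem Ty.mono {X : Set (Λ → Bool)} {F : (Λ → Bool) → Finset Λ} {Y Y' : Set (Λ → Bool)} {k : ℕ}
    (h : Ty X F Y k) (hY : Y ⊆ Y') : Ty X F Y' k := by
  obtain ⟨E, hE, h1, h2⟩ := h
  exact ⟨E, hE.trans (star_mono hY), h1, h2⟩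

theorem main_step [Uncountable Λ] {X : Set (Λ → Bool)} (hX : HFC X) (F : (Λ → Bool) → Finset Λ)
    (m : ℕ) (D₀ : Set (Λ → Bool)) (hD₀ : D₀ ⊆ X) (hlf₀ : LF X D₀) :
    ∃ D, Adm X F D₀ D ∧ (Yd X F m D).Countable := by
  classical
  by_contra hcon
  push Not at hcon
  -- types exist
  have h1 : ∀ D, Adm X F D₀ D → ∃ k ≤ m, Ty X F (Yd X F m D) k := by
    intro D hD
    have h2 : ¬ (star (Yd X F m D)).Countable := by
      intro hc
      apply hcon D hD
      have hsub : Yd X F m D ⊆ X := fun x hx => hx.1.1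
      refine (hc.union (star_countable hX hsub)).mono ?_
      intro x hx
      by_cases h : x ∈ star (Yd X F m D)
      · exact Or.inl h
      · exact Or.inr ⟨hx, h⟩
    obtain ⟨E, hE1, hE2, hE3⟩ := exists_lf hX ((star_subset _).trans fun x hx => hx.1.1) h2
    obtain ⟨E', hE', R, t, p, hR, hT⟩ := exists_typed hE2 (m := m) (F := F)
      fun y hy => (star_subset _ (hE1 hy)).2
    exact ⟨R.card, hR, E', hE'.trans hE1, hE3.mono hE', R, t, p, rfl, hT⟩
  -- the maximal minimal size of the root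
  obtain ⟨k₀, D₁, hD₁, hmin, hty⟩ : ∃ k₀ D₁, Adm X F D₀ D₁ ∧
      (∀ k < k₀, ¬ Ty X F (Yd X F m D₁) k) ∧
      ∀ D, Adm X F D₀ D → D₁ ⊆ D → Ty X F (Yd X F m D) k₀ := by
    let P : ℕ → Prop := fun k => ∃ D, Adm X F D₀ D ∧ ∀ k' < k, ¬ Ty X F (Yd X F m D) k'
    have hP0 : P 0 := ⟨D₀, Adm.refl hD₀ hlf₀, fun k' h => absurd h (Nat.not_lt_zero _)⟩
    have hPm : ¬ P (m + 1) := by
      rintro ⟨D, hD, h⟩
      obtain ⟨k, hk, hT⟩ := h1 D hD
      exact h k (by omega) hT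
    obtain ⟨k₀, ⟨D₁, hD₁, h2⟩, hk₀⟩ : ∃ k, P k ∧ ¬ P (k + 1) := by
      by_contra hcon'
      push Not at hcon'
      have h : ∀ k, P k := by
        intro k
        induction k with
        | zero => exact hP0
        | succ k ih => exact hcon' k ih
      exact hPm (h _)
    refine ⟨k₀, D₁, hD₁, h2, fun D hD hsub => ?_⟩
    by_contra hnot
    apply hk₀
    refine ⟨D, hD, fun k' hk' hT => ?_⟩
    rcases Nat.lt_succ_iff_lt_or_eq.1 hk' with h | rfl
    · exact h2 k' h (hT.mono (Yd_anti hsub))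
    · exact hnot hT
  -- a countable set of neighbourhoods covering the rest
  obtain ⟨a, haH, ha⟩ : ∃ a : ℕ → Λ → Bool, (∀ n, a n ∈ Hd X F D₀) ∧
      ∀ x ∈ Hd X F D₀, ∃ n, x ∈ V F (a n) := by
    obtain ⟨C, hC1, hC2, hC3⟩ := lindelof hX (fun x hx => hx.1 : Hd X F D₀ ⊆ X) F
    have hne : C.Nonempty := by
      by_contra h
      rw [Set.not_nonempty_iff_eq_empty] at h
      apply hcon D₀ (Adm.refl hD₀ hlf₀)
      convert countable_empty
      rw [Set.eq_empty_iff_forall_notMem]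
      intro x hx
      obtain ⟨c, hc, -⟩ := hC3 x hx.1
      rw [h] at hc
      exact hc
    obtain ⟨a, rfl⟩ := hC2.exists_eq_range hne
    refine ⟨a, fun n => hC1 ⟨n, rfl⟩, fun x hx => ?_⟩
    obtain ⟨_, ⟨n, rfl⟩, h⟩ := hC3 x hx
    exact ⟨n, h⟩
  have hty' : ∀ B : {D // Adm X F D₀ D ∧ D₁ ⊆ D}, ∃ (E : Set (Λ → Bool)) (R : Finset Λ)
      (t : Λ → Bool) (p : List Bool), E ⊆ star (Yd X F m B.1) ∧ LF X E ∧ R.card = k₀ ∧
        Typed F E R t p := by
    rintro ⟨D, hD, hsub⟩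
    obtain ⟨E, hE, h2, R, t, p, h3, h4⟩ := hty D hD hsub
    exact ⟨E, R, t, p, hE, h2, h3, h4⟩
  choose E R t p hE hElf hR hT using hty'
  have hEH : ∀ B : {D // Adm X F D₀ D ∧ D₁ ⊆ D}, E B ⊆ Hd X F B.1 := fun B =>
    (hE B).trans ((star_subset _).trans fun x hx => hx.1)
  let addp : {D // Adm X F D₀ D ∧ D₁ ⊆ D} → ℕ → {D // Adm X F D₀ D ∧ D₁ ⊆ D} := fun B n =>
    ⟨B.1 ∪ {a n}, B.2.1.add (singleton_subset_iff.2 (haH n)) (LF.of_finite (finite_singleton _)),
      B.2.2.trans subset_union_left⟩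
  let addE : {D // Adm X F D₀ D ∧ D₁ ⊆ D} → {D // Adm X F D₀ D ∧ D₁ ⊆ D} := fun B =>
    ⟨B.1 ∪ E B, B.2.1.add ((hEH B).trans (Hd_anti B.2.1.sub)) (hElf B),
      B.2.2.trans subset_union_left⟩
  let Dn : ℕ → {D // Adm X F D₀ D ∧ D₁ ⊆ D} := fun n =>
    Nat.rec ⟨D₁, hD₁, Subset.rfl⟩ (fun n B => addE (addp B n)) n
  let B : ℕ → {D // Adm X F D₀ D ∧ D₁ ⊆ D} := fun n => addp (Dn n) n
  have hDn : ∀ n, Dn (n + 1) = addE (B n) := fun n => rfl
  have hDB : ∀ n, (Dn n).1 ⊆ (B n).1 := fun n => subset_union_left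
  have haB : ∀ n, a n ∈ (B n).1 := fun n => Or.inr rfl
  have hBD : ∀ n, (B n).1 ⊆ (Dn (n + 1)).1 := fun n => subset_union_left
  have hED : ∀ n, E (B n) ⊆ (Dn (n + 1)).1 := fun n => subset_union_right
  have hBmono : Monotone fun n => (B n).1 :=
    monotone_nat_of_le_succ fun n => (hBD n).trans (hDB (n + 1))
  have hEB : ∀ i n, i < n → E (B i) ⊆ (B n).1 := fun i n hin =>
    (hED i).trans ((hDB (i + 1)).trans (hBmono hin))
  -- the types are distinct
  have hdist : ∀ i n, i < n → R (B i) = R (B n) → ¬ ∀ j ∈ R (B i), t (B i) j = t (B n) j := by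
    intro i n hin hRR htt
    obtain ⟨e, he⟩ := (hT (B n)).inf.nonempty
    have h2 := (hE (B n) he).2 (R (B i))
    apply h2
    refine ((hT (B i)).cov hX).mono ?_
    rintro y ⟨hy1, hy2⟩
    refine ⟨⟨hy1.1.1, fun j hj => ?_⟩, fun hy3 => ?_⟩
    · rw [hy2 j hj, htt j hj]
      exact (hT (B n)).eq e he j (hRR ▸ hj)
    · obtain ⟨d, hd, hyd⟩ := mem_iUnion₂.1 hy3
      exact hy1.1.2 d (hEB i n hin hd) hyd
  -- a delta system of types
  obtain ⟨r, s, q, S', -, hS'inf, hS'1, hS'2⟩ := isBig_infinite.delta (fun n => R (B n))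
    (fun n => t (B n)) k₀ univ infinite_univ (fun n _ => (hR (B n)).le)
  have hrk : r.card < k₀ := by
    by_contra hcon'
    have h2 : ∀ n ∈ S', r = R (B n) := by
      intro n hn
      refine Finset.eq_of_subset_of_card_le (hS'1 n hn).1 ?_
      rw [hR]
      exact not_lt.1 hcon'
    obtain ⟨i, hi⟩ := hS'inf.nonempty
    obtain ⟨n, hn, hin⟩ := hS'inf.exists_gt i
    refine hdist i n hin ((h2 i hi).symm.trans (h2 n hn)) fun j hj => ?_
    have hjr : j ∈ r := (h2 i hi).symm ▸ hj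
    rw [(hS'1 i hi).2.1 j hjr, (hS'1 n hn).2.1 j hjr]
  obtain ⟨f, hf1, hf2⟩ := exists_seq_of_forall_finset_exists
    (fun z : ℕ × (Λ → Bool) => z.1 ∈ S' ∧ z.2 ∈ E (B z.1))
    (fun z z' => z.1 < z'.1 ∧ Disjoint (F z.2 \ r) (F z'.2 \ r)) (by
      intro z _
      set K : Finset Λ := z.biUnion fun z => F z.2 with hK
      have hfin : {n ∈ S' | ¬ Disjoint (R (B n) \ r) K}.Finite := by
        refine ((K \ r).finite_toSet.biUnion fun j hj =>
          Set.not_infinite.1 (hS'2 j (Finset.mem_sdiff.1 hj).2)).subset ?_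
        rintro n ⟨hn, hd⟩
        rw [Finset.not_disjoint_iff] at hd
        obtain ⟨j, hj1, hj2⟩ := hd
        rw [Finset.mem_sdiff] at hj1
        exact mem_iUnion₂.2 ⟨j, Finset.mem_coe.2 (Finset.mem_sdiff.2 ⟨hj2, hj1.2⟩), hn, hj1.1⟩
      obtain ⟨n, ⟨hnS', hn⟩, hn'⟩ := (hS'inf.sdiff hfin).exists_gt (z.sup Prod.fst)
      have hd : Disjoint (R (B n) \ r) K := by
        by_contra hd
        exact hn ⟨hnS', hd⟩
      obtain ⟨e, he1, he2⟩ := ((hT (B n)).inf.sdiff ((hT (B n)).finite_meet K)).nonempty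
      have hd' : Disjoint (F e \ R (B n)) K := by
        by_contra hd
        exact he2 ⟨he1, hd⟩
      refine ⟨(n, e), ⟨hnS', he1⟩, fun z' hz' => ⟨?_, ?_⟩⟩
      · exact (Finset.le_sup (f := Prod.fst) hz').trans_lt hn'
      · rw [Finset.disjoint_left]
        intro j hj1 hj2
        have hjK : j ∈ K := Finset.mem_biUnion.2 ⟨z', hz', (Finset.mem_sdiff.1 hj1).1⟩
        rw [Finset.mem_sdiff] at hj2
        by_cases hjR : j ∈ R (B n)
        · exact Finset.disjoint_left.1 hd (Finset.mem_sdiff.2 ⟨hjR, hj2.2⟩) hjK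
        · exact Finset.disjoint_left.1 hd' (Finset.mem_sdiff.2 ⟨hj2.1, hjR⟩) hjK)
  have hmono : StrictMono fun l => (f l).1 := strictMono_nat_of_lt_succ fun l =>
    (hf2 l (l + 1) (Nat.lt_succ_self l)).1
  have heY : ∀ l, (f l).2 ∈ star (Yd X F m (B (f l).1).1) := fun l => hE _ (hf1 l).2
  have heY1 : ∀ l, (f l).2 ∈ star (Yd X F m D₁) := fun l =>
    star_mono (Yd_anti (B (f l).1).2.2) (heY l)
  have heH : ∀ l, (f l).2 ∈ Hd X F (B (f l).1).1 := fun l => (star_subset _ (heY l)).1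
  obtain ⟨hinf, hlf⟩ := lf_range (X := X) (e := fun l => (f l).2) (fun l => (heH l).1) (by
    intro x hx
    by_cases hxH : x ∈ Hd X F D₀
    · obtain ⟨i, hi⟩ := ha x hxH
      refine ⟨F (a i), ((Set.finite_Iio i).preimage hmono.injective.injOn).subset ?_⟩
      intro l hl
      by_contra hli
      have hil : i ≤ (f l).1 := not_lt.1 hli
      refine (heH l).2 (a i) (hBmono hil (haB i)) fun j hj => ?_
      rw [hl j hj, hi j hj]
    · have : ∃ d ∈ D₀, x ∈ V F d := by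
        by_contra h
        push Not at h
        exact hxH ⟨hx, h⟩
      obtain ⟨d, hd, hxd⟩ := this
      refine ⟨F d, (Set.finite_empty).subset ?_⟩
      intro l hl
      refine (heH l).2 d ((B (f l).1).2.1.sub hd) fun j hj => ?_
      rw [hl j hj, hxd j hj])
  have hroot : ∀ l, r ⊆ F (f l).2 := fun l =>
    (hS'1 _ (hf1 l).1).1.trans ((hT (B (f l).1)).root _ (hf1 l).2)
  obtain ⟨p', -, hp'⟩ := isBig_infinite.pigeonhole (fun y => pat (F y \ r) y)
    (List.finite_length_le Bool m) hinf (by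
      rintro _ ⟨l, rfl⟩
      rw [mem_ofPred_eq, length_pat]
      exact (Finset.card_le_card Finset.sdiff_subset).trans (star_subset _ (heY1 l)).2)
  refine hmin r.card hrk ⟨{y ∈ range fun l => (f l).2 | pat (F y \ r) y = p'}, ?_,
    hlf.mono (sep_subset _ _), r, s, p', rfl, hp', ?_, ?_, fun y hy => hy.2, ?_⟩
  · rintro _ ⟨⟨l, rfl⟩, -⟩
    exact heY1 l
  · rintro _ ⟨⟨l, rfl⟩, -⟩
    exact hroot l
  · rintro _ ⟨⟨l, rfl⟩, -⟩ j hj
    have h2 := (hT (B (f l).1)).eq _ (hf1 l).2 j ((hS'1 _ (hf1 l).1).1 hj)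
    exact h2.trans ((hS'1 _ (hf1 l).1).2.1 j hj)
  · intro j hj
    refine Set.Subsingleton.finite ?_
    rintro _ ⟨⟨⟨l, rfl⟩, -⟩, hjl⟩ _ ⟨⟨⟨l', rfl⟩, -⟩, hjl'⟩
    rcases lt_trichotomy l l' with h | rfl | h
    · exact absurd (Finset.mem_sdiff.2 ⟨hjl', hj⟩)
        (Finset.disjoint_left.1 (hf2 l l' h).2 (Finset.mem_sdiff.2 ⟨hjl, hj⟩))
    · rfl
    · exact absurd (Finset.mem_sdiff.2 ⟨hjl, hj⟩)
        (Finset.disjoint_left.1 (hf2 l' l h).2 (Finset.mem_sdiff.2 ⟨hjl', hj⟩))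

theorem exists_kernel [Uncountable Λ] {X : Set (Λ → Bool)} (hX : HFC X)
    (F : (Λ → Bool) → Finset Λ) :
    ∃ D ⊆ X, LF X D ∧ ∀ x ∈ X, ∃ d ∈ D, x ∈ V F d := by
  classical
  have hstep : ∀ (m : ℕ) (D₀ : {D : Set (Λ → Bool) // D ⊆ X ∧ LF X D}),
      ∃ D : {D : Set (Λ → Bool) // D ⊆ X ∧ LF X D}, Adm X F D₀.1 D.1 ∧
        (Yd X F m D.1).Countable := by
    rintro m ⟨D₀, h1, h2⟩
    obtain ⟨D, hD, hc⟩ := main_step hX F m D₀ h1 h2
    exact ⟨⟨D, hD.subX, hD.lf⟩, hD, hc⟩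
  choose M hM1 hM2 using hstep
  have henum : ∀ C : Set (Λ → Bool), ∃ q : ℕ → Λ → Bool, C.Countable → C ⊆ range q := by
    intro C
    by_cases hC : C.Countable
    · obtain ⟨q, hq⟩ := Set.countable_iff_exists_subset_range.1 hC
      exact ⟨q, fun _ => hq⟩
    · exact ⟨fun _ _ => false, fun h => absurd h hC⟩
  choose enum henum using henum
  -- the points to be treated
  let P : ℕ → Set (Λ → Bool) → List {D : Set (Λ → Bool) // D ⊆ X ∧ LF X D} → Set (Λ → Bool) :=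
    fun s D l => {x ∈ Hd X F D | ∃ D' ∈ l, ∃ i ≤ s, ∃ j ≤ s, enum (Yd X F i D'.1) j = x}
  have hPfin : ∀ s D l, (P s D l).Finite := by
    intro s D l
    refine ((l.finite_toSet.biUnion fun D' _ => (Set.finite_Iic s).biUnion fun i _ =>
      (Set.finite_Iic s).image fun j => enum (Yd X F i D'.1) j)).subset ?_
    rintro x ⟨-, D', hD', i, hi, j, hj, rfl⟩
    exact mem_iUnion₂.2 ⟨D', hD', mem_iUnion₂.2 ⟨i, hi, j, hj, rfl⟩⟩
  let addP : ℕ → {D : Set (Λ → Bool) // D ⊆ X ∧ LF X D} →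
      List {D : Set (Λ → Bool) // D ⊆ X ∧ LF X D} → {D : Set (Λ → Bool) // D ⊆ X ∧ LF X D} :=
    fun s D l => ⟨D.1 ∪ P s D.1 l, union_subset D.2.1 fun x hx => hx.1.1,
      D.2.2.union (LF.of_finite (hPfin s D.1 l))⟩
  let st : ℕ → {D : Set (Λ → Bool) // D ⊆ X ∧ LF X D} ×
      List {D : Set (Λ → Bool) // D ⊆ X ∧ LF X D} := fun s =>
    Nat.rec (M 0 ⟨∅, empty_subset _, LF.of_finite finite_empty⟩, []) (fun s q =>
      (M (s + 1) (addP s q.1 (q.1 :: q.2)), q.1 :: q.2)) s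
  have hst : ∀ s, st (s + 1) = (M (s + 1) (addP s (st s).1 ((st s).1 :: (st s).2)),
      (st s).1 :: (st s).2) := fun s => rfl
  have hadm : ∀ s, Adm X F (st s).1.1 (st (s + 1)).1.1 := by
    intro s
    rw [hst]
    refine Adm.trans ?_ (hM1 (s + 1) _)
    exact (Adm.refl (st s).1.2.1 (st s).1.2.2).add (fun x hx => hx.1) (LF.of_finite (hPfin _ _ _))
  have hcount : ∀ s, (Yd X F s (st s).1.1).Countable := by
    intro s
    cases s with
    | zero => exact hM2 0 _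
    | succ s =>
      rw [hst]
      exact hM2 (s + 1) _
  have hadm' : ∀ i s, i ≤ s → Adm X F (st i).1.1 (st s).1.1 := by
    intro i s his
    induction s, his using Nat.le_induction with
    | base => exact Adm.refl (st i).1.2.1 (st i).1.2.2
    | succ s _ ih => exact ih.trans (hadm s)
  have hmem : ∀ i s, i ≤ s → (st i).1 ∈ (st s).1 :: (st s).2 := by
    intro i s his
    induction s, his using Nat.le_induction with
    | base => exact List.mem_cons_self
    | succ s _ ih =>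
      rw [hst]
      exact List.mem_cons_of_mem _ ih
  have hcov : ∀ x ∈ X, ∃ s, ∃ d ∈ (st s).1.1, x ∈ V F d := by
    intro x hx
    by_contra hcon
    push Not at hcon
    have h1 : x ∈ Yd X F (F x).card (st (F x).card).1.1 := ⟨⟨hx, hcon _⟩, le_rfl⟩
    obtain ⟨j, hj⟩ := henum _ (hcount (F x).card) h1
    set s := max (F x).card j
    have h2 : x ∈ P s (st s).1.1 ((st s).1 :: (st s).2) :=
      ⟨⟨hx, hcon s⟩, _, hmem _ s (le_max_left _ _), (F x).card, le_max_left _ _, j,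
        le_max_right _ _, hj⟩
    have h3 : x ∈ (st (s + 1)).1.1 := by
      rw [hst]
      exact (hM1 (s + 1) _).sub (Or.inr h2)
    exact hcon (s + 1) x h3 (mem_V_self F x)
  refine ⟨⋃ s, (st s).1.1, iUnion_subset fun s => (st s).1.2.1, ?_, fun x hx => ?_⟩
  · intro x hx
    obtain ⟨s, d, hd, hxd⟩ := hcov x hx
    obtain ⟨G, hG⟩ := (st s).1.2.2 x hx
    refine ⟨G ∪ F d, hG.subset ?_⟩
    rintro y ⟨hy, hy'⟩
    refine ⟨?_, fun j hj => hy' j (Finset.mem_union_left _ hj)⟩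
    obtain ⟨i, hi⟩ := mem_iUnion.1 hy
    rcases le_total i s with h | h
    · exact (hadm' i s h).sub hi
    · by_contra hys
      refine ((hadm' s i h).stick y hi hys).2 d hd fun j hj => ?_
      rw [hy' j (Finset.mem_union_right _ hj), hxd j hj]
  · obtain ⟨s, d, hd, hxd⟩ := hcov x hx
    exact ⟨d, mem_iUnion.2 ⟨s, hd⟩, hxd⟩


theorem exists_agree {X : Set (Λ → Bool)} {O : Set X} (hO : IsOpen O) {x : X} (hx : x ∈ O) :
    ∃ G : Finset Λ, ∀ y : X, (∀ j ∈ G, y.1 j = x.1 j) → y ∈ O := by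
  obtain ⟨O', hO', rfl⟩ := isOpen_induced_iff.1 hO
  obtain ⟨G, u, hu, hG⟩ := isOpen_pi_iff.1 hO' _ hx
  refine ⟨G, fun y hy => hG fun j hj => ?_⟩
  rw [hy j hj]
  exact (hu j hj).2

theorem isOpen_agree {X : Set (Λ → Bool)} (G : Finset Λ) (x : Λ → Bool) :
    IsOpen {y : X | ∀ j ∈ G, y.1 j = x j} := by
  have : {y : X | ∀ j ∈ G, y.1 j = x j} = ⋂ j ∈ G, {y : X | y.1 j = x j} := by
    ext y
    simp
  rw [this]
  refine isOpen_biInter_finset fun j _ => ?_
  have h1 : Continuous fun y : X => y.1 j := (continuous_apply j).comp continuous_subtype_val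
  exact (isOpen_discrete {x j}).preimage h1

theorem dSpace [Uncountable Λ] {X : Set (Λ → Bool)} (hX : HFC X) : DSpace X := by
  classical
  intro U hU
  have h1 : ∀ x : Λ → Bool, ∃ G : Finset Λ, ∀ hx : x ∈ X, ∀ y : X, (∀ j ∈ G, y.1 j = x j) →
      y ∈ U ⟨x, hx⟩ := by
    intro x
    by_cases hx : x ∈ X
    · obtain ⟨G, hG⟩ := exists_agree (hU ⟨x, hx⟩).1 (hU ⟨x, hx⟩).2
      exact ⟨G, fun _ => hG⟩
    · exact ⟨∅, fun h => absurd h hx⟩
  choose F hF using h1
  obtain ⟨D, hDX, hlf, hcov⟩ := exists_kernel hX F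
  have h2 : IsClosed {x : X | x.1 ∈ D} ∧ IsDiscrete {x : X | x.1 ∈ D} := by
    rw [isClosed_and_discrete_iff]
    intro x
    rw [Filter.disjoint_principal_right]
    obtain ⟨G, hG⟩ := hlf x.1 x.2
    have hfin : {y : X | y.1 ∈ D ∧ ∀ j ∈ G, y.1 j = x.1 j}.Finite :=
      hG.preimage Subtype.val_injective.injOn
    have h3 : {y : X | ∀ j ∈ G, y.1 j = x.1 j} ∩
        ({y : X | y.1 ∈ D ∧ ∀ j ∈ G, y.1 j = x.1 j} \ {x})ᶜ ∈ 𝓝 x :=
      Filter.inter_mem ((isOpen_agree G x.1).mem_nhds fun _ _ => rfl)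
        ((hfin.subset sdiff_subset).isClosed.isOpen_compl.mem_nhds (by simp))
    rw [mem_nhdsWithin_iff_eventually]
    filter_upwards [h3] with y hy hyx hyD
    exact hy.2 ⟨⟨hyD, hy.1⟩, hyx⟩
  refine ⟨{x : X | x.1 ∈ D}, h2.1, h2.2.to_subtype, ?_⟩
  rw [eq_univ_iff_forall]
  intro x
  obtain ⟨d, hd, hxd⟩ := hcov x.1 x.2
  exact mem_iUnion₂.2 ⟨⟨d, hDX hd⟩, hd, hF d (hDX hd) x hxd⟩

end Pool.Agent.W5h75.HFCs
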