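import Mathlib

/-!
# The set of countable ordinals
-/

set_option autoImplicit false

open Set Cardinal Ordinal

namespace Pool.Agent.W5h75.Omega1

/-- The set of countable ordinals. -/
abbrev W : Type := (ℵ₁ : Cardinal.{0}).ord.ToType

theorem mk_W : #W = ℵ₁ := by simp [W]

theorem countable_Iio (a : W) : (Iio a).Countable := by
  rw [← Cardinal.le_aleph0_iff_set_countable, ← Cardinal.lt_aleph_one_iff]
  have := Cardinal.mk_Iio_lt a (by simp [W])
  simpa [W] using this

theorem not_countable : ¬ Countable W := by
  rw [← Cardinal.mk_le_aleph0_iff, mk_W]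
  exact not_le.2 aleph0_lt_aleph_one

theorem not_countable_univ : ¬ (univ : Set W).Countable := fun h =>
  not_countable (countable_univ_iff.1 h)

theorem countable_Iic (a : W) : (Iic a).Countable := by
  rw [← Iio_insert]
  exact (countable_Iio a).insert a

theorem exists_gt {C : Set W} (hC : C.Countable) : ∃ b, ∀ a ∈ C, a < b := by
  by_contra h
  push Not at h
  apply not_countable
  have h1 : (univ : Set W) ⊆ ⋃ a ∈ C, Iic a := by
    intro b _
    obtain ⟨a, ha, hb⟩ := h b
    exact mem_iUnion₂.2 ⟨a, ha, hb⟩
  exact countable_univ_iff.1 ((hC.biUnion fun a _ => countable_Iic a).mono h1)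

theorem exists_gt_seq (f : ℕ → W) : ∃ b, ∀ n, f n < b := by
  obtain ⟨b, hb⟩ := exists_gt (countable_range f)
  exact ⟨b, fun n => hb _ ⟨n, rfl⟩⟩

instance : NoMaxOrder W := ⟨fun a => by
  obtain ⟨b, hb⟩ := exists_gt (countable_singleton a)
  exact ⟨b, hb a rfl⟩⟩

instance : Nonempty W := by
  by_contra h
  rw [not_nonempty_iff] at h
  exact not_countable inferInstance

/-- A transfinite sequence of length `ω₁` in which each term is chosen after the countable set of
the previous terms. -/
theorem exists_seq {α : Type*} (R : Set α → α → Prop) (h : ∀ C : Set α, C.Countable → ∃ a, R C a) :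
    ∃ f : W → α, ∀ ξ, R (f '' Iio ξ) (f ξ) := by
  classical
  have : Nonempty α := ⟨(h ∅ countable_empty).choose⟩
  choose! g hg using h
  let f : W → α := wellFounded_lt.fix (C := fun _ : W => α) fun ξ rec =>
    g {a | ∃ η, ∃ hη : η < ξ, rec η hη = a}
  refine ⟨f, fun ξ => ?_⟩
  have h1 : f ξ = g (f '' Iio ξ) := by
    have : f ξ = g {a | ∃ η, ∃ _ : η < ξ, f η = a} := by
      show wellFounded_lt.fix _ ξ = _
      rw [WellFounded.fix_eq]
    rw [this]
    congr 1
    ext a
    simp [mem_image]
  rw [h1]
  exact hg _ ((countable_Iio ξ).image f)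

end Pool.Agent.W5h75.Omega1
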